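import Pool.Agent.MP_3775ab_al.H73.Mod

open scoped TensorProduct
open WithConv Coalgebra HopfAlgebra

namespace Pool.Agent.MP_3775ab_al.H73

universe u

variable {k H : Type u} [Field k] [Ring H] [HopfAlgebra k H]

section General
variable {A : Type u} [Semiring A] [Algebra k A]

theorem cv_apply (f g : H →ₐ[k] A) (c : ∀ a b, Commute (f a) (g b)) (h : H) :
    cv f g c h = (toConv f.toLinearMap * toConv g.toLinearMap) h := by
  change Algebra.TensorProduct.lift f g c (comul h) = _
  rw [LinearMap.convMul_apply]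
  induction (comul h : H ⊗[k] H) with
  | zero => simp
  | tmul a b => simp
  | add x y hx hy => simp only [map_add, hx, hy]

theorem cv_toLinearMap (f g : H →ₐ[k] A) (c : ∀ a b, Commute (f a) (g b)) :
    toConv (cv f g c).toLinearMap = toConv f.toLinearMap * toConv g.toLinearMap := by
  ext h
  exact cv_apply f g c h

theorem cv_commute (f g r : H →ₐ[k] A) (c : ∀ a b, Commute (f a) (g b))
    (h1 : ∀ a b, Commute (f a) (r b)) (h2 : ∀ a b, Commute (g a) (r b)) (a b : H) :
    Commute (cv f g c a) (r b) := by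
  change Commute (Algebra.TensorProduct.lift f g c (comul a)) _
  induction (comul a : H ⊗[k] H) with
  | zero => simp
  | tmul x y => simpa using (h1 x b).mul_left (h2 y b)
  | add x y hx hy => rw [map_add]; exact hx.add_left hy

theorem algHom_comp_one {B : Type u} [Semiring B] [Algebra k B] (φ : A →ₐ[k] B) :
    toConv (φ.toLinearMap ∘ₗ (1 : WithConv (H →ₗ[k] A)).ofConv) = 1 := by
  ext h
  simp [LinearMap.convOne_def]

theorem algHom_comp_mul {B : Type u} [Semiring B] [Algebra k B] (φ : A →ₐ[k] B)
    (f g : WithConv (H →ₗ[k] A)) :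
    toConv (φ.toLinearMap ∘ₗ (f * g).ofConv) =
      toConv (φ.toLinearMap ∘ₗ f.ofConv) * toConv (φ.toLinearMap ∘ₗ g.ofConv) := by
  rw [LinearMap.algHom_comp_convMul_distrib]

end General

/-- `T` intertwines two families of operators. -/
def Tw {V W : Type u} [AddCommMonoid V] [Module k V] [AddCommMonoid W] [Module k W]
    (T : V →ₗ[k] W) (f : WithConv (H →ₗ[k] Module.End k V))
    (g : WithConv (H →ₗ[k] Module.End k W)) : Prop :=
  ∀ h v, T (f h v) = g h (T v)

theorem Tw.mul {V W : Type u} [AddCommMonoid V] [Module k V] [AddCommMonoid W] [Module k W]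
    {T : V →ₗ[k] W} {f f' : WithConv (H →ₗ[k] Module.End k V)}
    {g g' : WithConv (H →ₗ[k] Module.End k W)} (h1 : Tw T f g) (h2 : Tw T f' g') :
    Tw T (f * f') (g * g') := by
  intro h v
  rw [LinearMap.convMul_apply, LinearMap.convMul_apply]
  induction (comul h : H ⊗[k] H) with
  | zero => simp
  | tmul x y =>
    simp only [TensorProduct.map_tmul, LinearMap.mul'_apply, Module.End.mul_apply]
    exact (h1 x _).trans (congrArg _ (h2 y v))
  | add x y hx hy => simp only [map_add, LinearMap.add_apply, hx, hy]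

theorem Tw.one {V W : Type u} [AddCommMonoid V] [Module k V] [AddCommMonoid W] [Module k W]
    (T : V →ₗ[k] W) : Tw (H := H) T 1 1 := by
  intro h v
  simp [Module.algebraMap_end_apply]

theorem Tw.of_tmul {U V W : Type u} [AddCommMonoid U] [Module k U] [AddCommMonoid V] [Module k V]
    [AddCommMonoid W] [Module k W]
    {T : U ⊗[k] V →ₗ[k] W} {f : WithConv (H →ₗ[k] Module.End k (U ⊗[k] V))}
    {g : WithConv (H →ₗ[k] Module.End k W)}
    (h : ∀ a u v, T (f a (u ⊗ₜ v)) = g a (T (u ⊗ₜ v))) : Tw T f g := by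
  intro a v
  induction v with
  | zero => simp
  | add x y hx hy => simp only [map_add, hx, hy]
  | tmul u v => exact h a u v

theorem Tw.of_tmul3 {U V V' W : Type u} [AddCommMonoid U] [Module k U] [AddCommMonoid V]
    [Module k V] [AddCommMonoid V'] [Module k V'] [AddCommMonoid W] [Module k W]
    {T : U ⊗[k] (V ⊗[k] V') →ₗ[k] W} {f : WithConv (H →ₗ[k] Module.End k (U ⊗[k] (V ⊗[k] V')))}
    {g : WithConv (H →ₗ[k] Module.End k W)}
    (h : ∀ a u v v', T (f a (u ⊗ₜ (v ⊗ₜ v'))) = g a (T (u ⊗ₜ (v ⊗ₜ v')))) : Tw T f g := by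
  refine Tw.of_tmul fun a u v => ?_
  induction v with
  | zero => simp
  | add x y hx hy => simp only [TensorProduct.tmul_add, map_add, hx, hy]
  | tmul v v' => exact h a u v v'

theorem Tw.of_tmul3' {U V V' W : Type u} [AddCommMonoid U] [Module k U] [AddCommMonoid V]
    [Module k V] [AddCommMonoid V'] [Module k V'] [AddCommMonoid W] [Module k W]
    {T : (U ⊗[k] V) ⊗[k] V' →ₗ[k] W} {f : WithConv (H →ₗ[k] Module.End k ((U ⊗[k] V) ⊗[k] V'))}
    {g : WithConv (H →ₗ[k] Module.End k W)}
    (h : ∀ a u v v', T (f a ((u ⊗ₜ v) ⊗ₜ v')) = g a (T ((u ⊗ₜ v) ⊗ₜ v'))) : Tw T f g := by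
  refine Tw.of_tmul fun a u v => ?_
  induction u with
  | zero => simp
  | add x y hx hy => simp only [TensorProduct.add_tmul, map_add, hx, hy]
  | tmul u u' => exact h a u u' v

/-- The antipode reverses the coproduct. -/
theorem comul_antipode (a : H) :
    (comul (antipode k a) : H ⊗[k] H) =
      TensorProduct.map (antipode k) (antipode k) (TensorProduct.comm k H H (comul a)) := by
  set iL : H →ₐ[k] H ⊗[k] H := Algebra.TensorProduct.includeLeft
  set iR : H →ₐ[k] H ⊗[k] H := Algebra.TensorProduct.includeRight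
  set S : WithConv (H →ₗ[k] H) := toConv (antipode k)
  set I : WithConv (H →ₗ[k] H) := toConv LinearMap.id
  have hSI : S * I = 1 := LinearMap.antipode_mul_id
  have hd : (toConv comul : WithConv (H →ₗ[k] H ⊗[k] H)) =
      toConv (iL.toLinearMap ∘ₗ I.ofConv) * toConv (iR.toLinearMap ∘ₗ I.ofConv) := by
    refine WithConv.ext (LinearMap.ext fun h => ?_)
    rw [LinearMap.convMul_apply]
    change comul h = _
    induction (comul h : H ⊗[k] H) with
    | zero => simp
    | tmul x y => simp [iL, iR, I]
    | add x y hx hy => simp only [map_add, ← hx, ← hy]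
  have hG : (toConv (iR.toLinearMap ∘ₗ S.ofConv) * toConv (iL.toLinearMap ∘ₗ S.ofConv)) *
      toConv comul = 1 := by
    rw [hd, mul_assoc, ← mul_assoc (toConv (iL.toLinearMap ∘ₗ S.ofConv)), ← algHom_comp_mul, hSI,
      algHom_comp_one, one_mul, ← algHom_comp_mul, hSI, algHom_comp_one]
  have hF := left_inv_eq_right_inv hG LinearMap.comul_right_inv
  have := congrArg (fun f : WithConv (H →ₗ[k] H ⊗[k] H) => f a) hF
  change _ = comul (antipode k a) at this
  rw [← this, LinearMap.convMul_apply]
  induction (comul a : H ⊗[k] H) with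
  | zero => simp
  | tmul x y => simp [iL, iR, S]
  | add x y hx hy => simp only [map_add, hx, hy]

end Pool.Agent.MP_3775ab_al.H73
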