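import Pool.Agent.MP_3775ab_al.H73.Conv

open scoped TensorProduct
open WithConv Coalgebra HopfAlgebra Module

namespace Pool.Agent.MP_3775ab_al.H73

universe u

variable {k H : Type u} [Field k] [Ring H] [HopfAlgebra k H]

/-- The product of `H*`: `conv ψ φ l = ∑ ψ l₁ * φ l₂`. -/
noncomputable def conv : Dual k H →ₗ[k] Dual k H →ₗ[k] Dual k H :=
  LinearMap.mk₂ k (fun ψ φ => (toConv ψ * toConv φ : WithConv (H →ₗ[k] k)).ofConv)
    (fun _ _ _ => by rw [toConv_add, add_mul]; rfl)
    (fun _ _ _ => by rw [toConv_smul, smul_mul_assoc]; rfl)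
    (fun _ _ _ => by rw [toConv_add, mul_add]; rfl)
    (fun _ _ _ => by rw [toConv_smul, mul_smul_comm]; rfl)

variable (k H) in
/-- `lt a ψ` is the functional `l ↦ ψ (S a * l)`. -/
noncomputable def lt : H →ₐ[k] End k (Dual k H) where
  toFun a := (LinearMap.mulLeft k (antipode k a)).dualMap
  map_one' := by ext; simp
  map_mul' a b := by ext; simp [antipode_mul_antidistrib]
  map_zero' := by ext; simp
  map_add' a b := by ext; simp [add_mul]
  commutes' c := by ext; simp [Algebra.algebraMap_eq_smul_one]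

variable (k H) in
/-- `rt b ψ` is the functional `l ↦ ψ (l * b)`. -/
noncomputable def rt : H →ₐ[k] End k (Dual k H) where
  toFun b := (LinearMap.mulRight k b).dualMap
  map_one' := by ext; simp
  map_mul' a b := by ext; simp [mul_assoc]
  map_zero' := by ext; simp
  map_add' a b := by ext; simp [mul_add]
  commutes' c := by ext; simp [Algebra.algebraMap_eq_smul_one]

theorem lt_rt_commute (a b : H) : Commute (lt k H a) (rt k H b) := by
  change _ * _ = _ * _
  ext
  simp [lt, rt, mul_assoc]

section Tri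

variable {Q V : Type u} [AddCommMonoid Q] [Module k Q] [AddCommMonoid V] [Module k V]

/-- For commuting actions `l, r` of `H` on `Q` and an action `ρ` on `V`, the action
`h • (q ⊗ v) = ∑ l h₁ (r h₃ q) ⊗ ρ h₂ v` on `Q ⊗ V`. -/
noncomputable def tri (l r : H →ₐ[k] End k Q) (c : ∀ a b, Commute (l a) (r b))
    (ρ : H →ₐ[k] End k V) : H →ₐ[k] End k (Q ⊗[k] V) :=
  cv (tens l ρ) ((End.rTensorAlgHom k Q V).comp r)
    (cv_commute _ _ _ _ (fun a b => (c a b).map (End.rTensorAlgHom k Q V))
      fun _ _ => (commute_tensor _ _).symm)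

/-- `beta ρ h (ψ ⊗ v) = ∑ ψ (S h₁ * · * h₃) ⊗ ρ h₂ v`. -/
noncomputable def beta (ρ : H →ₐ[k] End k V) : H →ₐ[k] End k (Dual k H ⊗[k] V) :=
  tri (lt k H) (rt k H) lt_rt_commute ρ

variable (V) in
/-- `alpha V φ (ψ ⊗ v) = conv ψ φ ⊗ v`. -/
noncomputable def alpha : Dual k H →ₗ[k] End k (Dual k H ⊗[k] V) :=
  LinearMap.rTensorHom V ∘ₗ conv.flip

/-- `theta ρ (φ ⊗ h) (ψ ⊗ v) = ∑ conv (ψ (S h₁ * · * h₃)) φ ⊗ ρ h₂ v`. -/
noncomputable def theta (ρ : H →ₐ[k] End k V) :
    Dual k H ⊗[k] H →ₗ[k] End k (Dual k H ⊗[k] V) :=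
  LinearMap.mul' k _ ∘ₗ TensorProduct.map (alpha V) (beta ρ).toLinearMap

theorem tri_conv (l r : H →ₐ[k] End k Q) (c : ∀ a b, Commute (l a) (r b))
    (ρ : H →ₐ[k] End k V) :
    toConv (tri l r c ρ).toLinearMap =
      toConv ((End.rTensorAlgHom k Q V).comp l).toLinearMap *
        toConv ((End.lTensorAlgHom k V Q).comp ρ).toLinearMap *
          toConv ((End.rTensorAlgHom k Q V).comp r).toLinearMap := by
  rw [tri, cv_toLinearMap, tens, cv_toLinearMap]

theorem conv_apply (ψ φ : Dual k H) (l : H) :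
    conv ψ φ l = LinearMap.mul' k k (TensorProduct.map ψ φ (comul l)) := rfl

theorem conv_assoc (a b c : Dual k H) : conv (conv a b) c = conv a (conv b c) :=
  congrArg ofConv (mul_assoc (toConv a) (toConv b) (toConv c))

theorem conv_counit_left (a : Dual k H) : conv counit a = a :=
  congrArg ofConv (one_mul (toConv a))

theorem conv_counit_right (a : Dual k H) : conv a counit = a :=
  congrArg ofConv (mul_one (toConv a))

@[simp] theorem lt_apply (a : H) (ψ : Dual k H) (l : H) : lt k H a ψ l = ψ (antipode k a * l) := rfl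

@[simp] theorem rt_apply (b : H) (ψ : Dual k H) (l : H) : rt k H b ψ l = ψ (l * b) := rfl

@[simp] theorem alpha_tmul (φ ψ : Dual k H) (v : V) :
    alpha V φ (ψ ⊗ₜ v) = conv ψ φ ⊗ₜ v := rfl

@[simp] theorem theta_tmul (ρ : H →ₐ[k] End k V) (φ : Dual k H) (h : H) :
    theta ρ (φ ⊗ₜ h) = alpha V φ * beta ρ h := rfl

theorem alpha_conv (ψ φ : Dual k H) : alpha V (conv ψ φ) = alpha V φ * alpha V ψ := by
  refine TensorProduct.ext' fun χ v => ?_
  simp [conv_assoc]

theorem alpha_counit : alpha V (counit : Dual k H) = 1 := by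
  refine TensorProduct.ext' fun χ v => ?_
  simp [conv_counit_right]

/-- the map `ψ ⊗ w ↦ alpha ψ w` -/
noncomputable def cmap : Dual k H ⊗[k] (Dual k H ⊗[k] V) →ₗ[k] Dual k H ⊗[k] V :=
  TensorProduct.lift (alpha V)

theorem rt_conv (b : H) (χ ψ : Dual k H) :
    rt k H b (conv χ ψ) = TensorProduct.lift
      (conv.compl₁₂ ((rt k H).toLinearMap.flip χ) ((rt k H).toLinearMap.flip ψ)) (comul b) := by
  ext l
  rw [rt_apply, conv_apply, Bialgebra.comul_mul]
  induction (comul b : H ⊗[k] H) with
  | zero => simp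
  | add x y hx hy => simp only [mul_add, map_add, LinearMap.add_apply, hx, hy]
  | tmul x y =>
    simp only [TensorProduct.lift.tmul, LinearMap.compl₁₂_apply, LinearMap.flip_apply,
      AlgHom.toLinearMap_apply, conv_apply]
    induction (comul l : H ⊗[k] H) with
    | zero => simp
    | add x y hx hy => simp only [add_mul, map_add, hx, hy]
    | tmul u v => simp

theorem lt_conv (a : H) (χ ψ : Dual k H) :
    lt k H a (conv χ ψ) = TensorProduct.lift
      (conv.flip.compl₁₂ ((lt k H).toLinearMap.flip ψ) ((lt k H).toLinearMap.flip χ)) (comul a) := by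
  ext l
  rw [lt_apply, conv_apply, Bialgebra.comul_mul, comul_antipode]
  induction (comul a : H ⊗[k] H) with
  | zero => simp
  | add x y hx hy => simp only [add_mul, map_add, LinearMap.add_apply, hx, hy]
  | tmul x y =>
    simp only [TensorProduct.lift.tmul, LinearMap.compl₁₂_apply, LinearMap.flip_apply,
      AlgHom.toLinearMap_apply, conv_apply]
    induction (comul l : H ⊗[k] H) with
    | zero => simp
    | add x y hx hy => simp only [mul_add, map_add, hx, hy]
    | tmul u v => simp

theorem theta_beta (ρ : H →ₐ[k] End k V) (h : H) (y : Dual k H ⊗[k] H) :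
    theta ρ (beta (Algebra.lmul k H) h y) = beta ρ h * theta ρ y := by
  refine LinearMap.ext fun w => ?_
  set D := Dual k H
  set rT := End.rTensorAlgHom k D (D ⊗[k] V)
  set lT := End.lTensorAlgHom k (D ⊗[k] V) D
  set L := ((End.rTensorAlgHom k D V).comp (lt k H)).toLinearMap
  set N := ((End.lTensorAlgHom k V D).comp ρ).toLinearMap
  set R := ((End.rTensorAlgHom k D V).comp (rt k H)).toLinearMap
  set L1 := toConv (rT.comp (lt k H)).toLinearMap
  set R1 := toConv (rT.comp (rt k H)).toLinearMap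
  have h1 : Tw (cmap (V := V)) (L1 * toConv (lT.toLinearMap ∘ₗ L)) (toConv L) := by
    refine Tw.of_tmul3 fun a ψ χ v => ?_
    · change cmap ((L1 * toConv (lT.toLinearMap ∘ₗ L)) a _) = lt k H a (conv χ ψ) ⊗ₜ v
      rw [lt_conv, LinearMap.convMul_apply]
      induction (comul a : H ⊗[k] H) with
      | zero => simp
      | add x y hx hy =>
        simp only [map_add, LinearMap.add_apply, hx, hy, TensorProduct.add_tmul]
      | tmul x y => rfl
  have h2 : Tw (cmap (V := V)) (toConv (lT.toLinearMap ∘ₗ N)) (toConv N) := by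
    exact Tw.of_tmul3 fun a ψ χ v => rfl
  have h3 : Tw (cmap (V := V)) (toConv (lT.toLinearMap ∘ₗ R) * R1) (toConv R) := by
    refine Tw.of_tmul3 fun a ψ χ v => ?_
    · change cmap ((toConv (lT.toLinearMap ∘ₗ R) * R1) a _) = rt k H a (conv χ ψ) ⊗ₜ v
      rw [rt_conv, LinearMap.convMul_apply]
      induction (comul a : H ⊗[k] H) with
      | zero => simp
      | add x y hx hy =>
        simp only [map_add, LinearMap.add_apply, hx, hy, TensorProduct.add_tmul]
      | tmul x y => rfl
  have hb : toConv (beta ρ).toLinearMap = toConv L * toConv N * toConv R := tri_conv _ _ _ _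
  have h4 : Tw (cmap (V := V)) (L1 * toConv (lT.toLinearMap ∘ₗ (beta ρ).toLinearMap) * R1)
      (toConv (beta ρ).toLinearMap) := by
    have := (h1.mul h2).mul h3
    rw [← hb] at this
    have e : toConv (lT.toLinearMap ∘ₗ (beta ρ).toLinearMap) =
        toConv (lT.toLinearMap ∘ₗ L) * toConv (lT.toLinearMap ∘ₗ N) *
          toConv (lT.toLinearMap ∘ₗ R) := by
      rw [← algHom_comp_mul lT (toConv L) (toConv N)]
      rw [← algHom_comp_mul lT (toConv L * toConv N) (toConv R), ← hb]
    rw [e]
    simpa only [mul_assoc] using this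
  set E : D ⊗[k] H →ₗ[k] D ⊗[k] (D ⊗[k] V) := ((beta ρ).toLinearMap.flip w).lTensor D
  have h5 : Tw E (toConv (beta (Algebra.lmul k H)).toLinearMap)
      (L1 * toConv (lT.toLinearMap ∘ₗ (beta ρ).toLinearMap) * R1) := by
    rw [beta, tri_conv]
    refine Tw.mul (Tw.mul (Tw.of_tmul fun _ _ _ => rfl) (Tw.of_tmul fun a χ g => ?_))
      (Tw.of_tmul fun _ _ _ => rfl)
    change χ ⊗ₜ (beta ρ (a * g) w) = χ ⊗ₜ (beta ρ a (beta ρ g w))
    rw [map_mul]; rfl
  have h6 : ∀ y, theta ρ y w = cmap (E y) := by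
    intro y
    induction y with
    | zero => simp
    | add x y hx hy => simp only [map_add, LinearMap.add_apply, hx, hy]
    | tmul χ g => rfl
  rw [h6, End.mul_apply, h6]
  exact (congrArg cmap (h5 h y)).trans (h4 h (E y))

theorem theta_theta (ρ : H →ₐ[k] End k V) (x y : Dual k H ⊗[k] H) :
    theta ρ (theta (Algebra.lmul k H) x y) = theta ρ x * theta ρ y := by
  induction x with
  | zero => simp
  | add x x' hx hx' => simp only [map_add, LinearMap.add_apply, hx, hx', add_mul]
  | tmul φ h =>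
    rw [theta_tmul, theta_tmul, End.mul_apply, mul_assoc, ← theta_beta]
    induction (beta (Algebra.lmul k H) h y) with
    | zero => simp
    | add x x' hx hx' => simp only [map_add, hx, hx', mul_add]
    | tmul ψ g => rw [alpha_tmul, theta_tmul, theta_tmul, alpha_conv, mul_assoc]

theorem beta_counit (ρ : H →ₐ[k] End k V) (h : H) (v : V) :
    beta ρ h (counit ⊗ₜ v) = counit ⊗ₜ ρ h v := by
  have : Tw (TensorProduct.mk k (Dual k H) V counit) (1 * toConv ρ.toLinearMap * 1)
      (toConv (beta ρ).toLinearMap) := by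
    rw [beta, tri_conv]
    refine Tw.mul (Tw.mul ?_ ?_) ?_
    · intro a v
      change _ = lt k H a counit ⊗ₜ v
      have : lt k H a counit = counit (R := k) a • counit := by ext; simp
      simp [this, Module.algebraMap_end_apply, TensorProduct.smul_tmul]
    · intro a v
      rfl
    · intro a v
      change _ = rt k H a counit ⊗ₜ v
      have : rt k H a counit = counit (R := k) a • counit := by ext; simp [mul_comm]
      simp [this, Module.algebraMap_end_apply, TensorProduct.smul_tmul]
  rw [one_mul, mul_one] at this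
  exact (this h v).symm

theorem theta_one (ρ : H →ₐ[k] End k V) : theta ρ (counit ⊗ₜ 1) = 1 := by
  rw [theta_tmul, alpha_counit, map_one, mul_one]

theorem theta_apply_one (x : Dual k H ⊗[k] H) :
    theta (Algebra.lmul k H) x (counit ⊗ₜ 1) = x := by
  induction x with
  | zero => simp
  | add x x' hx hx' => simp only [map_add, LinearMap.add_apply, hx, hx']
  | tmul φ h => simp [beta_counit, conv_counit_left]

end Tri

variable (k H) in
/-- The Drinfeld double `D(H) = H*ᵒᵖ ⋈ H`: the space `H* ⊗ H` with the product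
`(φ ⊗ h) (ψ ⊗ g) = ∑ conv (ψ (S h₁ * · * h₃)) φ ⊗ h₂ * g` and unit `ε ⊗ 1`. -/
def Double : Type u := Dual k H ⊗[k] H

noncomputable instance : AddCommGroup (Double k H) :=
  inferInstanceAs (AddCommGroup (Dual k H ⊗[k] H))

noncomputable instance : Module k (Double k H) := inferInstanceAs (Module k (Dual k H ⊗[k] H))

noncomputable instance : Ring (Double k H) where
  mul x y := theta (Algebra.lmul k H) x y
  one := (counit ⊗ₜ 1 : Dual k H ⊗[k] H)
  mul_assoc x y z := LinearMap.congr_fun (theta_theta (Algebra.lmul k H) x y) z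
  one_mul x := LinearMap.congr_fun (theta_one (Algebra.lmul k H)) x
  mul_one x := theta_apply_one x
  zero_mul x := LinearMap.congr_fun (map_zero (theta (Algebra.lmul k H))) x
  mul_zero x := map_zero (theta (Algebra.lmul k H) x)
  left_distrib x y z := map_add (theta (Algebra.lmul k H) x) y z
  right_distrib x y z := LinearMap.congr_fun (map_add (theta (Algebra.lmul k H)) x y) z

noncomputable instance : Algebra k (Double k H) :=
  Algebra.ofModule (fun c x y => LinearMap.congr_fun (map_smul (theta (Algebra.lmul k H)) c x) y)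
    fun c x y => map_smul (theta (Algebra.lmul k H) x) c y

variable (k H) in
/-- The inclusion `H → D(H)`, `h ↦ ε ⊗ h`. -/
noncomputable def incl : H →ₐ[k] Double k H :=
  AlgHom.ofLinearMap (TensorProduct.mk k (Dual k H) H counit) rfl fun a b => by
    change counit ⊗ₜ (a * b) = theta (Algebra.lmul k H) (counit ⊗ₜ a) (counit ⊗ₜ b)
    simp [beta_counit, conv_counit_left]

theorem theta_repr (φ ψ : Dual k H) (h g : H) {n : ℕ} {a b c : Fin n → H}
    (hr : IsComul3 (k := k) h a b c) :
    theta (Algebra.lmul k H) (φ ⊗ₜ h) (ψ ⊗ₜ g) =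
      ∑ i, convDual (twist (a i) (c i) ψ) φ ⊗ₜ (b i * g) := by
  let Φ : (H ⊗[k] H) ⊗[k] H →ₗ[k] End k (Dual k H ⊗[k] H) :=
    LinearMap.mul' k _ ∘ₗ TensorProduct.map
      (Algebra.TensorProduct.lift ((End.rTensorAlgHom k (Dual k H) H).comp (lt k H))
        ((End.lTensorAlgHom k H (Dual k H)).comp (Algebra.lmul k H))
        fun _ _ => commute_tensor _ _).toLinearMap
      ((End.rTensorAlgHom k (Dual k H) H).comp (rt k H)).toLinearMap
  have h1 : beta (Algebra.lmul k H) h =
      Φ ((comul : H →ₗ[k] H ⊗[k] H).rTensor H (comul h)) := by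
    rw [beta, tri, cv_apply, LinearMap.convMul_apply]
    induction (comul h : H ⊗[k] H) with
    | zero => simp
    | add x y hx hy => simp only [map_add, hx, hy]
    | tmul x y => rfl
  rw [theta_tmul, End.mul_apply, h1, hr, map_sum, LinearMap.sum_apply, map_sum]
  refine Finset.sum_congr rfl fun i _ => ?_
  change conv (lt k H (a i) (rt k H (c i) ψ)) φ ⊗ₜ[k] (b i * g) = _
  rfl

theorem exists_comul3 (h : H) : ∃ (n : ℕ) (a b c : Fin n → H), IsComul3 (k := k) h a b c := by
  unfold IsComul3
  induction ((comul : H →ₗ[k] H ⊗[k] H).rTensor H (comul h)) with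
  | zero => exact ⟨0, ![], ![], ![], by simp⟩
  | add x y hx hy =>
    obtain ⟨n, a, b, c, rfl⟩ := hx
    obtain ⟨m, a', b', c', rfl⟩ := hy
    exact ⟨n + m, Fin.append a a', Fin.append b b', Fin.append c c', by simp [Fin.sum_univ_add]⟩
  | tmul t c =>
    obtain ⟨n, a, b, rfl⟩ := TensorProduct.exists_sum_tmul_eq t
    exact ⟨n, a, b, fun _ => c, TensorProduct.sum_tmul _ _ _⟩

theorem isDouble_double :
    IsDouble (D := Double k H) (LinearEquiv.refl k (Dual k H ⊗[k] H)) (incl k H) :=
  ⟨fun _ => rfl, fun φ ψ h g _ _ _ _ hr => theta_repr φ ψ h g hr⟩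

theorem IsDouble.mul_eq {D : Type u} [Ring D] [Algebra k D] {e : Dual k H ⊗[k] H ≃ₗ[k] D}
    {ι : H →ₐ[k] D} (hD : IsDouble e ι) (x y : Dual k H ⊗[k] H) :
    e x * e y = e (theta (Algebra.lmul k H) x y) := by
  induction x with
  | zero => simp
  | add x x' hx hx' => simp only [map_add, add_mul, LinearMap.add_apply, hx, hx']
  | tmul φ h =>
    induction y with
    | zero => simp
    | add y y' hy hy' => simp only [map_add, mul_add, hy, hy']
    | tmul ψ g =>
      obtain ⟨n, a, b, c, hr⟩ := exists_comul3 (k := k) h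
      rw [hD.mul φ ψ h g n a b c hr, theta_repr φ ψ h g hr, map_sum]

end Pool.Agent.MP_3775ab_al.H73
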