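import Mathlib

open scoped TensorProduct
open MvPolynomial

namespace Pool.Agent.MP_3775ab_al.H73

variable (k : Type) [Field k] (s : k)

/-- the relations `e² = e`, `y² = 0`, `x² = s e` -/
noncomputable def rels : Ideal (MvPolynomial (Fin 3) k) :=
  Ideal.span {X 0 ^ 2 - X 0, X 1 ^ 2, X 2 ^ 2 - C s * X 0}

/-- the algebra `k[e, y, x] / (e² - e, y², x² - s e)` -/
def Hs : Type := MvPolynomial (Fin 3) k ⧸ rels k s

noncomputable instance : CommRing (Hs k s) := inferInstanceAs (CommRing (_ ⧸ rels k s))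

noncomputable instance : Algebra k (Hs k s) := inferInstanceAs (Algebra k (_ ⧸ rels k s))

namespace Hs

variable {k s}

/-- the quotient map -/
noncomputable def mk : MvPolynomial (Fin 3) k →ₐ[k] Hs k s := Ideal.Quotient.mkₐ k (rels k s)

/-- generator -/
noncomputable def e : Hs k s := mk (X 0)
/-- generator -/
noncomputable def y : Hs k s := mk (X 1)
/-- generator -/
noncomputable def x : Hs k s := mk (X 2)

theorem mk_surjective : Function.Surjective (mk : _ → Hs k s) := Ideal.Quotient.mk_surjective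

theorem mk_rel {p : MvPolynomial (Fin 3) k}
    (h : p ∈ ({X 0 ^ 2 - X 0, X 1 ^ 2, X 2 ^ 2 - C s * X 0} : Set (MvPolynomial (Fin 3) k))) :
    (mk p : Hs k s) = 0 := Ideal.Quotient.eq_zero_iff_mem.2 (Ideal.subset_span h)

theorem e_sq : (e : Hs k s) ^ 2 = e := by
  have := mk_rel (s := s) (p := X 0 ^ 2 - X 0) (by simp)
  rwa [map_sub, map_pow, sub_eq_zero] at this

theorem y_sq : (y : Hs k s) ^ 2 = 0 := by
  have := mk_rel (s := s) (p := X 1 ^ 2) (by simp)
  rwa [map_pow] at this

theorem x_sq : (x : Hs k s) ^ 2 = algebraMap k _ s * e := by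
  have := mk_rel (s := s) (p := X 2 ^ 2 - C s * X 0) (by simp)
  rwa [map_sub, map_pow, sub_eq_zero, map_mul, ← algebraMap_eq, AlgHom.commutes] at this

/-- universal property -/
noncomputable def lift {R : Type} [CommRing R] [Algebra k R] (a b c : R) (ha : a ^ 2 = a)
    (hb : b ^ 2 = 0) (hc : c ^ 2 = algebraMap k R s * a) : Hs k s →ₐ[k] R :=
  Ideal.Quotient.liftₐ (rels k s) (aeval ![a, b, c]) fun p hp => by
    refine Submodule.span_induction (p := fun p _ => aeval ![a, b, c] p = 0) ?_ (map_zero _)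
      (fun _ _ _ _ h1 h2 => by rw [map_add, h1, h2, add_zero])
      (fun _ _ _ h => by rw [smul_eq_mul, map_mul, h, mul_zero]) hp
    rintro _ (rfl | rfl | rfl) <;> simp [ha, hb, hc]

section
variable {R : Type} [CommRing R] [Algebra k R] {a b c : R} {ha : a ^ 2 = a}
    {hb : b ^ 2 = 0} {hc : c ^ 2 = algebraMap k R s * a}

@[simp] theorem lift_e : lift a b c ha hb hc e = a := aeval_X _ (0 : Fin 3)
@[simp] theorem lift_y : lift a b c ha hb hc y = b := aeval_X _ (1 : Fin 3)
@[simp] theorem lift_x : lift a b c ha hb hc x = c := aeval_X _ (2 : Fin 3)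
end

theorem hom_ext {R : Type} [Semiring R] [Algebra k R] {f g : Hs k s →ₐ[k] R} (h0 : f e = g e)
    (h1 : f y = g y) (h2 : f x = g x) : f = g := by
  have : f.comp mk = g.comp mk := by
    refine MvPolynomial.algHom_ext fun i => ?_
    fin_cases i
    exacts [h0, h1, h2]
  refine AlgHom.ext fun h => ?_
  obtain ⟨p, rfl⟩ := mk_surjective h
  exact AlgHom.congr_fun this p

instance : FiniteDimensional k (Hs k s) := by
  have h : Algebra.adjoin k {(e : Hs k s), y, x} = ⊤ := by
    refine eq_top_iff.2 fun h _ => ?_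
    obtain ⟨p, rfl⟩ := mk_surjective h
    induction p using MvPolynomial.induction_on with
    | C a => rw [← algebraMap_eq, AlgHom.commutes]; exact Subalgebra.algebraMap_mem _ _
    | add p q hp hq => rw [map_add]; exact add_mem (hp trivial) (hq trivial)
    | mul_X p i hp =>
      rw [map_mul]
      refine mul_mem (hp trivial) (Algebra.subset_adjoin ?_)
      fin_cases i
      · exact Or.inl rfl
      · exact Or.inr (Or.inl rfl)
      · exact Or.inr (Or.inr rfl)
  have he : IsIntegral k (e : Hs k s) :=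
    ⟨Polynomial.X ^ 2 - Polynomial.X, by monicity!, by simp [e_sq]⟩
  have h2 := Algebra.finite_adjoin_of_finite_of_isIntegral (R := k)
    (s := {(e : Hs k s), y, x}) (Set.toFinite _) (by
      rintro _ (rfl | rfl | rfl)
      · exact he
      · exact IsIntegral.of_pow two_pos (y_sq (s := s) ▸ isIntegral_zero)
      · exact IsIntegral.of_pow two_pos (x_sq (s := s) ▸ isIntegral_algebraMap.mul he))
  rw [h] at h2
  exact Module.Finite.equiv (Subalgebra.topEquiv (R := k) (A := Hs k s)).toLinearEquiv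

variable [CharP k 2]

theorem two_eq (R : Type) [Ring R] [Algebra k R] : (2 : R) = 0 := by
  have : (2 : k) = 0 := CharTwo.two_eq_zero
  rw [← map_ofNat (algebraMap k R) 2, this, map_zero]

open Algebra.TensorProduct in
/-- the coproduct -/
noncomputable def comulHom : Hs k s →ₐ[k] Hs k s ⊗[k] Hs k s :=
  lift (e ⊗ₜ 1 + 1 ⊗ₜ e) (y ⊗ₜ 1 + 1 ⊗ₜ y) (x ⊗ₜ 1 + 1 ⊗ₜ x + e ⊗ₜ y)
    (by
      have h2 := two_eq (k := k) (Hs k s ⊗[k] Hs k s)
      have h3 : (e ⊗ₜ 1 : Hs k s ⊗[k] Hs k s) ^ 2 = e ⊗ₜ 1 := by rw [tmul_pow, e_sq, one_pow]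
      have h4 : (1 ⊗ₜ e : Hs k s ⊗[k] Hs k s) ^ 2 = 1 ⊗ₜ e := by rw [tmul_pow, e_sq, one_pow]
      linear_combination h3 + h4 + (e ⊗ₜ 1) * (1 ⊗ₜ e) * h2)
    (by
      have h2 := two_eq (k := k) (Hs k s ⊗[k] Hs k s)
      have h3 : (y ⊗ₜ 1 : Hs k s ⊗[k] Hs k s) ^ 2 = 0 := by
        rw [tmul_pow, y_sq, TensorProduct.zero_tmul]
      have h4 : (1 ⊗ₜ y : Hs k s ⊗[k] Hs k s) ^ 2 = 0 := by
        rw [tmul_pow, y_sq, TensorProduct.tmul_zero]
      linear_combination h3 + h4 + (y ⊗ₜ 1) * (1 ⊗ₜ y) * h2)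
    (by
      have h2 := two_eq (k := k) (Hs k s ⊗[k] Hs k s)
      have h3 : (x ⊗ₜ 1 : Hs k s ⊗[k] Hs k s) ^ 2 = algebraMap k _ s * e ⊗ₜ 1 := by
        rw [tmul_pow, x_sq, one_pow, ← Algebra.smul_def, ← Algebra.smul_def,
          TensorProduct.smul_tmul']
      have h4 : (1 ⊗ₜ x : Hs k s ⊗[k] Hs k s) ^ 2 = algebraMap k _ s * 1 ⊗ₜ e := by
        rw [tmul_pow, x_sq, one_pow, ← Algebra.smul_def, ← Algebra.smul_def,
          TensorProduct.tmul_smul]
      have h5 : (e ⊗ₜ y : Hs k s ⊗[k] Hs k s) ^ 2 = 0 := by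
        rw [tmul_pow, y_sq, TensorProduct.tmul_zero]
      linear_combination h3 + h4 + h5 +
        ((x ⊗ₜ 1) * (1 ⊗ₜ x) + (x ⊗ₜ 1) * (e ⊗ₜ y) + (1 ⊗ₜ x) * (e ⊗ₜ y)) * h2)

/-- the counit -/
noncomputable def counitHom : Hs k s →ₐ[k] k := lift 0 0 0 (by simp) (by simp) (by simp)

/-- the antipode -/
noncomputable def antipodeHom : Hs k s →ₐ[k] Hs k s :=
  lift e y (x + e * y) e_sq y_sq (by
    have h2 := two_eq (k := k) (Hs k s)
    linear_combination x_sq (s := s) + e ^ 2 * y_sq (s := s) + x * e * y * h2)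

noncomputable instance : Bialgebra k (Hs k s) :=
  Bialgebra.ofAlgHom comulHom counitHom
    (by
      refine hom_ext ?_ ?_ ?_ <;>
      simp [comulHom, TensorProduct.add_tmul, TensorProduct.tmul_add,
        Algebra.TensorProduct.one_def] <;> abel)
    (by refine hom_ext ?_ ?_ ?_ <;> simp [comulHom, counitHom])
    (by refine hom_ext ?_ ?_ ?_ <;> simp [comulHom, counitHom])

theorem comul_e : (Coalgebra.comul (e : Hs k s) : Hs k s ⊗[k] Hs k s) = e ⊗ₜ 1 + 1 ⊗ₜ e := by
  change comulHom e = _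
  simp [comulHom]
theorem comul_y : (Coalgebra.comul (y : Hs k s) : Hs k s ⊗[k] Hs k s) = y ⊗ₜ 1 + 1 ⊗ₜ y := by
  change comulHom y = _
  simp [comulHom]
theorem comul_x : (Coalgebra.comul (x : Hs k s) : Hs k s ⊗[k] Hs k s) =
    x ⊗ₜ 1 + 1 ⊗ₜ x + e ⊗ₜ y := by
  change comulHom x = _
  simp [comulHom]
theorem counit_e : Coalgebra.counit (R := k) (e : Hs k s) = 0 := by
  change counitHom (s := s) e = _
  simp [counitHom]
theorem counit_y : Coalgebra.counit (R := k) (y : Hs k s) = 0 := by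
  change counitHom (s := s) y = _
  simp [counitHom]
theorem counit_x : Coalgebra.counit (R := k) (x : Hs k s) = 0 := by
  change counitHom (s := s) x = _
  simp [counitHom]

noncomputable instance : HopfAlgebra k (Hs k s) :=
  HopfAlgebra.ofAlgHom antipodeHom
    (by
      have h2 := two_eq (k := k) (Hs k s)
      refine hom_ext ?_ ?_ ?_ <;>
      simp [comul_e, comul_y, comul_x, counit_e, counit_y, counit_x, antipodeHom]
      · linear_combination e * h2
      · linear_combination y * h2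
      · linear_combination (x + e * y) * h2)
    (by
      have h2 := two_eq (k := k) (Hs k s)
      refine hom_ext ?_ ?_ ?_ <;>
      simp [comul_e, comul_y, comul_x, counit_e, counit_y, counit_x, antipodeHom]
      · linear_combination e * h2
      · linear_combination y * h2
      · linear_combination (x + e * y) * h2)

theorem antipode_e : HopfAlgebra.antipode k (e : Hs k s) = e := by
  change antipodeHom e = _
  simp [antipodeHom]
theorem antipode_y : HopfAlgebra.antipode k (y : Hs k s) = y := by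
  change antipodeHom y = _
  simp [antipodeHom]
theorem antipode_x : HopfAlgebra.antipode k (x : Hs k s) = x + e * y := by
  change antipodeHom x = _
  simp [antipodeHom]

end Hs

end Pool.Agent.MP_3775ab_al.H73
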