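import Mathlib

open scoped TensorProduct
open Module

namespace Pool.Agent.MP_3775ab_al.H73

variable {k V : Type} [Field k] [AddCommGroup V] [Module k V] [FiniteDimensional k V]

theorem exists_homotopy {s : k} (hs : ∀ a : k, a ^ 2 ≠ s) (z e : End k V)
    (hee : ∀ v, e (e v) = e v) (hze : ∀ v, z (e v) = e (z v)) (hzz : ∀ v, z (z v) = s • e v)
    (hker : ∀ v, z v = 0 → ∃ w, z w = v) :
    ∃ σ : End k V, (∀ v, σ (e v) = e (σ v)) ∧ ∀ v, z (σ v) + σ (z v) = v := by
  let good : Submodule k V → Prop := fun C =>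
    (∀ c ∈ C, e c ∈ C) ∧ ∀ c ∈ C, ∀ c' ∈ C, c + z c' = 0 → c = 0 ∧ c' = 0
  have hg0 : good ⊥ := ⟨fun c hc => by simp [(Submodule.mem_bot k).1 hc],
    fun c hc c' hc' _ => ⟨hc, hc'⟩⟩
  obtain ⟨C, hC, hmax⟩ := (wellFounded_gt (α := Submodule k V)).has_min {C | good C} ⟨⊥, hg0⟩
  let φ : C × C →ₗ[k] V := C.subtype.coprod (z ∘ₗ C.subtype)
  have hφ : ∀ c c' : C, φ (c, c') = c + z c' := fun _ _ => rfl
  let U := LinearMap.range φ
  have hU : ∀ v, v ∈ U ↔ ∃ c ∈ C, ∃ c' ∈ C, c + z c' = v := by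
    intro v
    constructor
    · rintro ⟨⟨c, c'⟩, rfl⟩
      exact ⟨c, c.2, c', c'.2, rfl⟩
    · rintro ⟨c, hc, c', hc', rfl⟩
      exact ⟨(⟨c, hc⟩, ⟨c', hc'⟩), rfl⟩
  have hzU : ∀ v ∈ U, z v ∈ U := by
    intro v hv
    obtain ⟨c, hc, c', hc', rfl⟩ := (hU v).1 hv
    refine (hU _).2 ⟨s • e c', C.smul_mem _ (hC.1 _ hc'), c, hc, ?_⟩
    rw [map_add, hzz, add_comm]
  -- extension step
  have hext : ∀ v, (∃ t : k, e v = t • v) →
      (∀ a b : k, a • v + b • z v ∈ U → a = 0 ∧ b = 0) → False := by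
    rintro v ⟨t, ht⟩ hv
    refine hmax (C ⊔ k ∙ v) ⟨?_, ?_⟩ (lt_of_le_of_ne le_sup_left fun h => ?_)
    · intro c hc0
      obtain ⟨c, hc, _, hc', rfl⟩ := Submodule.mem_sup.1 hc0
      obtain ⟨a, rfl⟩ := Submodule.mem_span_singleton.1 hc'
      rw [map_add, map_smul, ht]
      exact Submodule.add_mem_sup (hC.1 c hc) (Submodule.smul_mem _ _
        (Submodule.smul_mem _ _ (Submodule.mem_span_singleton_self v)))
    · intro c hc0 c' hc0' h
      obtain ⟨c, hc, _, h1, rfl⟩ := Submodule.mem_sup.1 hc0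
      obtain ⟨a, rfl⟩ := Submodule.mem_span_singleton.1 h1
      obtain ⟨c', hc', _, h2, rfl⟩ := Submodule.mem_sup.1 hc0'
      obtain ⟨b, rfl⟩ := Submodule.mem_span_singleton.1 h2
      have h3 : a • v + b • z v = -(c + z c') := by
        rw [map_add, map_smul] at h
        rw [eq_neg_iff_add_eq_zero, ← h]
        abel
      obtain ⟨rfl, rfl⟩ := hv a b (h3 ▸ U.neg_mem ((hU _).2 ⟨c, hc, c', hc', rfl⟩))
      simp only [zero_smul, add_zero] at h ⊢
      exact hC.2 c hc c' hc' h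
    · have : v ∈ C := by
        rw [h]
        exact Submodule.mem_sup_right (Submodule.mem_span_singleton_self v)
      exact one_ne_zero (hv 1 0 ((hU _).2 ⟨v, this, 0, C.zero_mem, by simp⟩)).1
  have case1 : ∀ v, e v = v → v ∈ U := by
    intro v hv
    by_contra hn
    refine hext v ⟨1, by simp [hv]⟩ fun a b hab => ?_
    have h1 := U.sub_mem (U.smul_mem a hab) (U.smul_mem b (hzU _ hab))
    have h2 : a • (a • v + b • z v) - b • z (a • v + b • z v) = (a ^ 2 - b ^ 2 * s) • v := by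
      rw [map_add, map_smul, map_smul, hzz, hv]
      module
    rw [h2] at h1
    have h3 : a ^ 2 - b ^ 2 * s = 0 := by
      by_contra h3
      exact hn ((U.smul_mem_iff h3).1 h1)
    have hb : b = 0 := by
      by_contra hb
      refine hs (a / b) ?_
      field_simp
      linear_combination h3
    subst hb
    exact ⟨by simpa using h3, rfl⟩
  have case2 : ∀ v, e v = 0 → z v ∈ U := by
    intro v hv
    by_contra hn
    refine hext v ⟨0, by simp [hv]⟩ fun a b hab => ?_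
    have h1 := hzU _ hab
    rw [map_add, map_smul, map_smul, hzz, hv, smul_zero, smul_zero, add_zero] at h1
    have ha : a = 0 := by
      by_contra ha
      exact hn ((U.smul_mem_iff ha).1 h1)
    subst ha
    refine ⟨rfl, ?_⟩
    by_contra hb
    rw [zero_smul, zero_add] at hab
    exact hn ((U.smul_mem_iff hb).1 hab)
  have case3 : ∀ v, e v = 0 → v ∈ U := by
    intro v hv
    obtain ⟨c, hc, c', hc', h⟩ := (hU _).1 (case2 v hv)
    have h0 : e c + z (e c') = 0 := by rw [hze, ← map_add, h, ← hze, hv, map_zero]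
    obtain ⟨h1, h2⟩ := hC.2 _ (hC.1 c hc) _ (hC.1 c' hc') h0
    have h3 : (0 : V) + z c = 0 := by
      have := congrArg z h
      rwa [map_add, hzz, hzz, h2, hv, smul_zero, add_zero, ← zero_add (z c)] at this
    obtain ⟨-, rfl⟩ := hC.2 0 C.zero_mem c hc h3
    obtain ⟨w, hw⟩ := hker (v - c') (by rw [map_sub, ← h, zero_add, sub_self])
    have h4 : z (w - e w) = v - c' := by
      rw [map_sub, hze, hw, map_sub, hv, h2, sub_zero, sub_zero]
    have h5 := case2 (w - e w) (by rw [map_sub, hee, sub_self])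
    rw [h4] at h5
    have h6 : c' ∈ U := (hU _).2 ⟨c', hc', 0, C.zero_mem, by simp⟩
    simpa using U.add_mem h5 h6
  have hbij : Function.Bijective φ := by
    refine ⟨(injective_iff_map_eq_zero φ).2 ?_, fun v => ?_⟩
    · rintro ⟨c, c'⟩ h
      obtain ⟨h1, h2⟩ := hC.2 c c.2 c' c'.2 h
      exact Prod.ext (Subtype.ext h1) (Subtype.ext h2)
    · have := U.add_mem (case1 (e v) (hee v)) (case3 (v - e v) (by rw [map_sub, hee, sub_self]))
      rwa [add_sub_cancel] at this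
  let ψ := LinearEquiv.ofBijective φ hbij
  let σ : End k V := C.subtype ∘ₗ LinearMap.snd k C C ∘ₗ ψ.symm.toLinearMap
  have hσ : ∀ c ∈ C, ∀ c' ∈ C, σ (c + z c') = c' := by
    intro c hc c' hc'
    change ((ψ.symm (ψ (⟨c, hc⟩, ⟨c', hc'⟩))).2 : V) = c'
    rw [ψ.symm_apply_apply]
  refine ⟨σ, fun v => ?_, fun v => ?_⟩
  · obtain ⟨⟨c, c'⟩, rfl⟩ := hbij.2 v
    rw [hφ, map_add e, ← hze, hσ _ (hC.1 _ c.2) _ (hC.1 _ c'.2), hσ _ c.2 _ c'.2]
  · obtain ⟨⟨c, c'⟩, rfl⟩ := hbij.2 v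
    rw [hφ, map_add z, hzz, add_comm (z c), hσ _ (C.smul_mem _ (hC.1 _ c'.2)) _ c.2,
      hσ _ c.2 _ c'.2, add_comm]

theorem exists_homotopy' {s : k} (hs : ∀ a : k, a ^ 2 ≠ s) (z e : End k V)
    (hee : ∀ v, e (e v) = e v) (hze : ∀ v, z (e v) = e (z v)) (hzz : ∀ v, z (z v) = s • e v) :
    ∃ τ : End k V, (∀ v, τ (e v) = τ v) ∧ (∀ v, e (τ v) = τ v) ∧
      ∀ v, z (τ v) + τ (z v) = e v := by
  let W := LinearMap.range e
  have hW : ∀ v ∈ W, z v ∈ W := by
    rintro _ ⟨v, rfl⟩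
    exact ⟨z v, (hze v).symm⟩
  have hs0 : s ≠ 0 := fun h => hs 0 (by simp [h])
  have h1 : ∀ v : W, z.restrict hW (z.restrict hW v) = s • (1 : End k W) v := by
    rintro ⟨_, v, rfl⟩
    exact Subtype.ext ((hzz _).trans (congrArg (s • ·) (hee v)))
  obtain ⟨σ, -, hσ⟩ := exists_homotopy hs (z.restrict hW) 1 (fun _ => rfl) (fun _ => rfl) h1
    fun v hv => ⟨0, by
      have := h1 v
      rw [hv, map_zero, End.one_apply, eq_comm, smul_eq_zero] at this
      rw [map_zero, this.resolve_left hs0]⟩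
  refine ⟨W.subtype ∘ₗ σ ∘ₗ e.rangeRestrict, fun v => ?_, fun v => ?_, fun v => ?_⟩
  · exact congrArg (fun w : W => (σ w : V)) (Subtype.ext (hee v))
  · obtain ⟨w, hw⟩ := (σ (e.rangeRestrict v)).2
    change e (σ (e.rangeRestrict v)) = σ (e.rangeRestrict v)
    rw [← hw, hee]
  · have := congrArg Subtype.val (hσ (e.rangeRestrict v))
    have h2 : e.rangeRestrict (z v) = z.restrict hW (e.rangeRestrict v) :=
      Subtype.ext (hze v).symm
    change z (σ (e.rangeRestrict v)) + σ (e.rangeRestrict (z v)) = e v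
    rw [h2]
    exact this

end Pool.Agent.MP_3775ab_al.H73
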