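import Pool.Agent.MP_3775ab_al.H73.Mod

open scoped TensorProduct
open Module

namespace Pool.Agent.MP_3775ab_al.H73

universe u

variable {k A : Type u} [Field k] [Ring A] [Algebra k A]

theorem FDMod.act_ofHom (V : Type u) [AddCommGroup V] [Module k V] [FiniteDimensional k V]
    (ρ : A →ₐ[k] End k V) : (FDMod.ofHom V ρ).act = ρ :=
  AlgHom.ext fun _ => LinearMap.ext fun _ => rfl

theorem FDMod.act_apply (M : FDMod k A) (a : A) (v : M.V) : M.act a v = a • v := rfl

/-- a `k`-linear map commuting with the action, as an `A`-linear map -/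
def mkHom {M N : FDMod k A} (f : M.V →ₗ[k] N.V) (h : ∀ a v, f (M.act a v) = N.act a (f v)) :
    M.V →ₗ[A] N.V where
  toFun := f
  map_add' := f.map_add
  map_smul' := h

/-- submodule as a module -/
def FDMod.sub (M : FDMod k A) (p : Submodule A M.V) : FDMod k A :=
  haveI : FiniteDimensional k p :=
    FiniteDimensional.of_injective (p.subtype.restrictScalars k) p.injective_subtype
  { V := p }

/-- quotient module -/
def FDMod.quot (M : FDMod k A) (p : Submodule A M.V) : FDMod k A :=
  haveI : FiniteDimensional k (M.V ⧸ p) :=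
    Module.Finite.of_surjective (p.mkQ.restrictScalars k) p.mkQ_surjective
  { V := M.V ⧸ p }

theorem FDMod.exists_atom (M : FDMod k A) (p : Submodule A M.V) (hp : p ≠ ⊥) :
    ∃ q : Submodule A M.V, q ≤ p ∧ IsSimpleModule A q := by
  have : IsArtinian A M.V := isArtinian_of_tower k inferInstance
  rcases eq_bot_or_exists_atom_le p with h | ⟨q, hq, hle⟩
  · exact absurd h hp
  · exact ⟨q, hle, isSimpleModule_iff_isAtom.2 hq⟩

/-- forgetting `A`-linearity -/
def resEnd (X : FDMod k A) : End A X.V →ₐ[k] End k X.V :=
  AlgHom.ofLinearMap (LinearMap.restrictScalarsₗ k A X.V X.V k) rfl fun _ _ => rfl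

theorem exists_maxComm (X : FDMod k A) :
    ∃ L : Subalgebra k (End A X.V), (∀ a ∈ L, ∀ b ∈ L, a * b = b * a) ∧
      ∀ c, (∀ l ∈ L, c * l = l * c) → c ∈ L := by
  have : FiniteDimensional k (End A X.V) := LinearMap.finiteDimensional'
  have hb : BddAbove ((fun L : Subalgebra k (End A X.V) => finrank k L) ''
      {L | ∀ a ∈ L, ∀ b ∈ L, a * b = b * a}) :=
    ⟨finrank k (End A X.V), by
      rintro _ ⟨L, -, rfl⟩
      exact Submodule.finrank_le L.toSubmodule⟩
  have hne : ((fun L : Subalgebra k (End A X.V) => finrank k L) ''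
      {L | ∀ a ∈ L, ∀ b ∈ L, a * b = b * a}).Nonempty := by
    refine ⟨_, ⊥, ?_, rfl⟩
    intro a ha b _
    obtain ⟨c, rfl⟩ := Algebra.mem_bot.1 ha
    exact Algebra.commutes c b
  obtain ⟨L, hL, hmax⟩ := Nat.sSup_mem hne hb
  refine ⟨L, hL, fun c hc => ?_⟩
  set L' := Algebra.adjoin k (insert c (L : Set (End A X.V)))
  have hcomm : IsMulCommutative L' := by
    refine Algebra.isMulCommutative_adjoin k ?_
    rintro x (rfl | hx) y (rfl | hy)
    · rfl
    · exact hc y hy
    · exact (hc x hx).symm
    · exact hL x hx y hy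
  have hle : L ≤ L' := fun x hx => Algebra.subset_adjoin (Set.mem_insert_of_mem _ hx)
  have hd : finrank k L' ≤ finrank k L := by
    refine le_trans (le_csSup hb ⟨L', ?_, rfl⟩) hmax.ge
    intro a ha b hb
    exact congrArg Subtype.val (hcomm.is_comm.comm (⟨a, ha⟩ : L') ⟨b, hb⟩)
  have : L.toSubmodule = L'.toSubmodule := Submodule.eq_of_le_of_finrank_le hle hd
  have hc' : c ∈ L'.toSubmodule := Algebra.subset_adjoin (Set.mem_insert _ _)
  rwa [← this] at hc'

theorem density (X : FDMod k A) [IsSimpleModule A X.V] (L : Subalgebra k (End A X.V))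
    (hmax : ∀ c, (∀ l ∈ L, c * l = l * c) → c ∈ L) (g : End k X.V)
    (hg : ∀ l ∈ L, ∀ x, g (l x) = l (g x)) :
    g ∈ Submodule.span k {f : End k X.V | ∃ a, ∃ l ∈ L, f = X.act a * resEnd X l} := by
  classical
  have hc : ∀ (a : A) (l : L), Commute (X.act a) (((resEnd X).comp L.val) l) := by
    intro a l
    change _ * _ = _ * _
    ext x
    exact (l.1.map_smul a x).symm
  set φ := Algebra.TensorProduct.lift X.act ((resEnd X).comp L.val) hc
  set XL : FDMod k (A ⊗[k] L) := FDMod.ofHom X.V φ
  have h1 : ∀ (a : A) (x : X.V), φ (a ⊗ₜ 1) x = a • x := by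
    intro a x
    simp [φ, FDMod.act_apply]
  have h2 : ∀ (l : L) (x : X.V), φ (1 ⊗ₜ l) x = l.1 x := by
    intro l x
    simp only [φ, Algebra.TensorProduct.lift_tmul, map_one, one_mul]
    rfl
  have : Nontrivial XL.V := IsSimpleModule.nontrivial A X.V
  have : IsSimpleModule (A ⊗[k] L) XL.V := by
    refine { eq_bot_or_eq_top := fun p => ?_ }
    let p' : Submodule A X.V :=
      { carrier := {x | (show XL.V from x) ∈ p}
        add_mem' := fun hx hy => p.add_mem hx hy
        zero_mem' := p.zero_mem
        smul_mem' := fun a x hx => by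
          have := p.smul_mem (a ⊗ₜ 1) hx
          rw [← h1]
          exact this }
    rcases eq_bot_or_eq_top p' with h | h
    · left
      refine eq_bot_iff.2 fun x hx => ?_
      have : (show X.V from x) ∈ p' := hx
      rw [h] at this
      exact this
    · right
      refine eq_top_iff.2 fun x _ => ?_
      have : (show X.V from x) ∈ p' := h ▸ Submodule.mem_top
      exact this
  let g' : End (End (A ⊗[k] L) XL.V) XL.V :=
    { toFun := g
      map_add' := g.map_add
      map_smul' := fun c x => by
        let c' : End A X.V :=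
          { toFun := c
            map_add' := c.map_add
            map_smul' := fun a x => by
              have := c.map_smul (a ⊗ₜ 1) x
              simp only [RingHom.id_apply]
              rw [← h1, ← h1]
              exact this }
        have : c' ∈ L := by
          refine hmax c' fun l hl => ?_
          ext x
          have := c.map_smul (1 ⊗ₜ ⟨l, hl⟩) x
          change c (l x) = l (c x)
          rw [← h2 ⟨l, hl⟩, ← h2 ⟨l, hl⟩]
          exact this
        exact hg c' this x }
  let b := Module.finBasis k X.V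
  obtain ⟨r, hr⟩ := jacobson_density g' (Finset.univ.image b)
  have : g = φ r := b.ext fun i => hr (b i) (Finset.mem_image_of_mem _ (Finset.mem_univ i))
  rw [this]
  clear this hr
  induction r with
  | zero => simp
  | add x y hx hy => rw [map_add]; exact Submodule.add_mem _ hx hy
  | tmul a l => exact Submodule.subset_span ⟨a, l.1, l.2, rfl⟩

end Pool.Agent.MP_3775ab_al.H73
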