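import Pool.Agent.MP_3775ab_al.H73.Raw
import Pool.Agent.MP_3775ab_al.H73.Simple
import Pool.Agent.MP_3775ab_al.H73.Example
import Pool.Agent.MP_3775ab_al.H73.Homotopy

open scoped TensorProduct
open WithConv Coalgebra HopfAlgebra Module

namespace Pool.Agent.MP_3775ab_al.H73

namespace Hs

variable {k : Type} [Field k] {s : k} [CharP k 2]

theorem add_self {V : Type} [AddCommGroup V] [Module k V] (v : V) : v + v = 0 := by
  rw [← two_smul k v, CharTwo.two_eq_zero, zero_smul]

/-- the element `x + b y` -/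
noncomputable def z (b : k) : Hs k s := x + b • y

theorem z_sq (b : k) : (z b : Hs k s) * z b = s • e := by
  have h2 := two_eq (k := k) (Hs k s)
  rw [z, Algebra.smul_def, Algebra.smul_def]
  linear_combination x_sq (s := s) + algebraMap k _ b ^ 2 * y_sq (s := s) +
    x * algebraMap k _ b * y * h2

theorem comul_z (b : k) : (comul (z b : Hs k s) : Hs k s ⊗[k] Hs k s) =
    z b ⊗ₜ 1 + 1 ⊗ₜ z b + e ⊗ₜ y := by
  simp only [z, map_add, map_smul, comul_x, comul_y, TensorProduct.add_tmul,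
    TensorProduct.tmul_add, smul_add, TensorProduct.smul_tmul', TensorProduct.tmul_smul]
  abel

theorem counit_z (b : k) : counit (R := k) (z b : Hs k s) = 0 := by
  simp [z, counit_x, counit_y]

theorem exists_deriv (b : k) :
    ∃ d : Hs k s → Hs k s, d 0 = 0 ∧ ∀ a, d (z b * a) = a + z b * d a := by
  have e1 : (e : Hs k s) * e = e := (sq _).symm.trans e_sq
  have e2 : (y : Hs k s) * y = 0 := (sq _).symm.trans y_sq
  have e3 : (x : Hs k s) * x = algebraMap k _ s * e := (sq _).symm.trans x_sq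
  let φ : Hs k s →ₐ[k] QuadraticAlgebra (Hs k s) 0 0 := lift ⟨e, 0⟩ ⟨y, 0⟩ ⟨x, 1⟩
    (by ext <;> simp [sq, e1])
    (by ext <;> simp [sq, e2])
    (by
      have h : algebraMap k (QuadraticAlgebra (Hs k s) 0 0) s = ⟨algebraMap k _ s, 0⟩ := rfl
      rw [h]
      ext
      · simp [sq, e3]
      · simp [sq, add_self (k := k)])
  let p : QuadraticAlgebra (Hs k s) 0 0 →ₐ[Hs k s] Hs k s := QuadraticAlgebra.lift ⟨0, by simp⟩
  have hp : ∀ r, p r = r.re := fun r => by simp [p, QuadraticAlgebra.lift]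
  have h1 : (p.restrictScalars k).comp φ = AlgHom.id k _ := by
    refine hom_ext ?_ ?_ ?_ <;> simp [φ, hp]
  have h2 : ∀ a, (φ a).re = a := fun a => (hp _).symm.trans (AlgHom.congr_fun h1 a)
  have h3 : (φ (z b)).im = 1 := by simp [φ, z]
  refine ⟨fun a => (φ a).im, by simp, fun a => ?_⟩
  simp only [map_mul, QuadraticAlgebra.im_mul, h2, h3]
  ring

theorem cv_z {A : Type} [Semiring A] [Algebra k A] (f g : Hs k s →ₐ[k] A)
    (c : ∀ a b, Commute (f a) (g b)) (b : k) :
    cv f g c (z b) = f (z b) + g (z b) + f e * g y := by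
  change Algebra.TensorProduct.lift f g c (comul (z b)) = _
  rw [comul_z]
  simp

/-- the modules on whose identity component `z b` acts freely -/
def PP (b : k) : Set (FDMod k (Hs k s)) :=
  {M | ∀ v : M.V, (z b : Hs k s) • v = 0 → ∃ w : M.V, (z b : Hs k s) • w = v}

section
variable (M : FDMod k (Hs k s)) (b : k)

omit [CharP k 2] in
theorem ee (v : M.V) : (e : Hs k s) • (e : Hs k s) • v = (e : Hs k s) • v := by
  rw [smul_smul, ← sq, e_sq]

omit [CharP k 2] in
theorem ze (v : M.V) : (z b : Hs k s) • (e : Hs k s) • v = (e : Hs k s) • (z b : Hs k s) • v :=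
  smul_comm _ _ _

theorem zz (v : M.V) : (z b : Hs k s) • (z b : Hs k s) • v = s • (e : Hs k s) • v := by
  rw [smul_smul, z_sq, smul_assoc]

variable {M b}

theorem e_of_z (hs : s ≠ 0) {v : M.V} (h : (z b : Hs k s) • v = 0) : (e : Hs k s) • v = 0 := by
  have := zz M b v
  rw [h, smul_zero, eq_comm, smul_eq_zero] at this
  exact this.resolve_left hs

theorem PP_elim (hs : s ≠ 0) (hM : M ∈ PP b) {v : M.V} (h : (z b : Hs k s) • v = 0) :
    ∃ w : M.V, (e : Hs k s) • w = 0 ∧ (z b : Hs k s) • w = v := by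
  obtain ⟨w, hw⟩ := hM v h
  refine ⟨w - (e : Hs k s) • w, by rw [smul_sub, ee, sub_self], ?_⟩
  rw [smul_sub, ze, hw, e_of_z hs h, sub_zero]

omit [CharP k 2] in
theorem lift_e0 {N : FDMod k (Hs k s)} {g : M.V →ₗ[Hs k s] N.V} (hg : Function.Surjective g)
    {n : N.V} (h : (e : Hs k s) • n = 0) : ∃ m, (e : Hs k s) • m = 0 ∧ g m = n := by
  obtain ⟨m, rfl⟩ := hg n
  exact ⟨m - (e : Hs k s) • m, by rw [smul_sub, ee, sub_self],
    by rw [map_sub, map_smul, h, sub_zero]⟩

end

theorem tens_z {V W : Type} [AddCommGroup V] [Module k V] [AddCommGroup W] [Module k W]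
    (ρ : Hs k s →ₐ[k] End k V) (σ : Hs k s →ₐ[k] End k W) (b : k) (v : V) (w : W) :
    tens ρ σ (z b) (v ⊗ₜ w) = ρ (z b) v ⊗ₜ w + v ⊗ₜ σ (z b) w + ρ e v ⊗ₜ σ y w := by
  rw [tens, cv_z]
  rfl

theorem PP_thick (hs : ∀ a : k, a ^ 2 ≠ s) (b : k) : IsThickIdeal (PP (s := s) b) := by
  have hs0 : s ≠ 0 := fun h => hs 0 (by simp [h])
  refine ⟨?_, ?_, ?_, ?_, ?_⟩
  · intro M hM v hv
    obtain ⟨σ, hσ⟩ := Module.Projective.out (self := hM)
    obtain ⟨d, hd0, hd⟩ := exists_deriv (s := s) b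
    refine ⟨Finsupp.linearCombination _ id ((σ v).mapRange d hd0), ?_⟩
    rw [← map_smul]
    refine Eq.trans (congrArg _ ?_) (hσ v)
    ext i
    have h1 : z b * σ v i = 0 := by
      have := congrArg (fun f => f i) (σ.map_smul (z b) v)
      simpa [hv] using this.symm
    have h2 := hd (σ v i)
    rw [h1, hd0] at h2
    have h3 := add_self (k := k) (σ v i)
    simp only [Finsupp.smul_apply, Finsupp.mapRange_apply, smul_eq_mul]
    linear_combination -h2 - h3
  · rintro M N ⟨i, r, h⟩ hN v hv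
    obtain ⟨w, hw⟩ := hN (i v) (by rw [← map_smul, hv, map_zero])
    exact ⟨r w, by rw [← map_smul, hw, h]⟩
  · rintro L M N ⟨f, g, hf, hfg, hg⟩
    refine ⟨fun hL hM n hn => ?_, fun hL hN m hm => ?_, fun hM hN l hl => ?_⟩
    · obtain ⟨m, hm, rfl⟩ := lift_e0 hg (e_of_z hs0 hn)
      obtain ⟨l, hl⟩ := (hfg ((z b : Hs k s) • m)).1 (by rw [map_smul, hn])
      obtain ⟨l', rfl⟩ := hL l (hf (by rw [map_smul, hl, zz, hm, smul_zero, map_zero]))
      obtain ⟨m', hm'⟩ := hM (m - f l') (by rw [smul_sub, ← hl, map_smul, sub_self])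
      exact ⟨g m', by rw [← map_smul, hm', map_sub, hfg.apply_apply_eq_zero, sub_zero]⟩
    · obtain ⟨n, hn, hn'⟩ := PP_elim hs0 hN (v := g m) (by rw [← map_smul, hm, map_zero])
      obtain ⟨m', hm', rfl⟩ := lift_e0 hg hn
      obtain ⟨l, hl⟩ := (hfg (m - (z b : Hs k s) • m')).1 (by rw [map_sub, map_smul, hn', sub_self])
      obtain ⟨l', rfl⟩ := hL l (hf (by
        rw [map_smul, hl, smul_sub, zz, hm, hm', smul_zero, map_zero, sub_zero]))
      exact ⟨m' + f l', by rw [smul_add, ← map_smul, hl, add_sub_cancel]⟩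
    · obtain ⟨m, hm, hm'⟩ := PP_elim hs0 hM (v := f l) (by rw [← map_smul, hl, map_zero])
      obtain ⟨n, hn, hn'⟩ := PP_elim hs0 hN (v := g m)
        (by rw [← map_smul, hm', hfg.apply_apply_eq_zero])
      obtain ⟨m', h1, rfl⟩ := lift_e0 hg hn
      obtain ⟨l', hl'⟩ := (hfg (m - (z b : Hs k s) • m')).1
        (by rw [map_sub, map_smul, hn', sub_self])
      exact ⟨l', hf (by rw [map_smul, hl', smul_sub, zz, h1, smul_zero, sub_zero, hm'])⟩
  · intro X M hM
    obtain ⟨σ, -, hσ⟩ := exists_homotopy hs (M.act (z b)) (M.act e) (ee M) (ze M b) (zz M b) hM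
    obtain ⟨τ, h1, h2, hτ⟩ := exists_homotopy' hs (X.act (z b)) (X.act e) (ee X) (ze X b) (zz X b)
    let T : End k (X.V ⊗[k] M.V) := τ.rTensor _ + TensorProduct.map (1 - X.act e) σ
    have key : ∀ v, tens X.act M.act (z b) (T v) + T (tens X.act M.act (z b) v) = v := by
      intro v
      induction v with
      | zero => simp
      | add x y hx hy =>
        simp only [map_add]
        linear_combination (norm := abel) hx + hy
      | tmul p m =>
        have a1 : X.act e (p - X.act e p) = 0 := by rw [map_sub]; exact sub_eq_zero.2 (ee X p).symm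
        have a2 : X.act e p - X.act e (X.act e p) = 0 := sub_eq_zero.2 (ee X p).symm
        have a3 : X.act (z b) (p - X.act e p) = X.act (z b) p - X.act e (X.act (z b) p) := by
          rw [map_sub]; exact congrArg _ (ze X b p)
        simp only [T, tens_z, map_add, LinearMap.add_apply, LinearMap.rTensor_tmul,
          TensorProduct.map_tmul, LinearMap.sub_apply, End.one_apply, h1, h2, a1, a2, a3,
          TensorProduct.zero_tmul]
        have b1 := congrArg (· ⊗ₜ[k] m) (hτ p)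
        have b2 := congrArg ((p - X.act e p) ⊗ₜ[k] ·) (hσ m)
        have b3 : (p - X.act e p) ⊗ₜ[k] m = p ⊗ₜ[k] m - X.act e p ⊗ₜ[k] m :=
          TensorProduct.sub_tmul _ _ _
        simp only [TensorProduct.add_tmul, TensorProduct.tmul_add] at b1 b2
        linear_combination (norm := abel) b1 + b2 + b3 +
          add_self (k := k) (τ p ⊗ₜ[k] M.act (z b) m) + add_self (k := k) (τ p ⊗ₜ[k] M.act y m) +
          add_self (k := k) ((X.act (z b) p - X.act e (X.act (z b) p)) ⊗ₜ[k] σ m)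
    intro v hv
    refine ⟨T v, ?_⟩
    have := key v
    rw [show tens X.act M.act (z b) v = 0 from hv, map_zero, add_zero] at this
    exact this
  · intro M X hM
    obtain ⟨σ, h1, hσ⟩ := exists_homotopy hs (M.act (z b)) (M.act e) (ee M) (ze M b) (zz M b) hM
    let T : End k (M.V ⊗[k] X.V) := σ.rTensor _
    have key : ∀ v, tens M.act X.act (z b) (T v) + T (tens M.act X.act (z b) v) = v := by
      intro v
      induction v with
      | zero => simp
      | add x y hx hy =>
        simp only [map_add]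
        linear_combination (norm := abel) hx + hy
      | tmul m p =>
        simp only [T, tens_z, map_add, LinearMap.rTensor_tmul, h1]
        have b1 := congrArg (· ⊗ₜ[k] p) (hσ m)
        simp only [TensorProduct.add_tmul] at b1
        linear_combination (norm := abel) b1 +
          add_self (k := k) (σ m ⊗ₜ[k] X.act (z b) p) +
          add_self (k := k) (M.act e (σ m) ⊗ₜ[k] X.act y p)
    intro v hv
    refine ⟨T v, ?_⟩
    have := key v
    rw [show tens M.act X.act (z b) v = 0 from hv, map_zero, add_zero] at this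
    exact this

theorem PP_cp (hs0 : s ≠ 0) (b : k) (A B : FDMod k (Hs k s)) (h : A.tensor B ∈ PP b) :
    A ∈ PP b ∨ B ∈ PP b := by
  by_contra hc
  simp only [PP, Set.mem_ofPred_eq, not_or, not_forall, not_exists] at hc
  obtain ⟨⟨p, hp, hp'⟩, q, hq, hq'⟩ := hc
  obtain ⟨α, hα, hα'⟩ := Submodule.exists_le_ker_of_notMem
    (p := LinearMap.range (A.act (z b))) (v := p) fun ⟨w, hw⟩ => hp' w hw
  obtain ⟨β, hβ, hβ'⟩ := Submodule.exists_le_ker_of_notMem
    (p := LinearMap.range (B.act (z b))) (v := q) fun ⟨w, hw⟩ => hq' w hw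
  have a1 : ∀ v, α (A.act (z b) v) = 0 := fun v => hα' ⟨v, rfl⟩
  have a2 : ∀ v, β (B.act (z b) v) = 0 := fun v => hβ' ⟨v, rfl⟩
  have a3 : ∀ v, α (A.act e v) = 0 := fun v => by
    have := a1 (A.act (z b) v)
    rw [show A.act (z b) (A.act (z b) v) = s • A.act e v from zz A b v, map_smul,
      smul_eq_zero] at this
    exact this.resolve_left hs0
  obtain ⟨w, hw⟩ := h (p ⊗ₜ q : A.V ⊗[k] B.V) (by
    change tens A.act B.act (z b) (p ⊗ₜ q) = 0
    rw [tens_z, show A.act (z b) p = 0 from hp, show B.act (z b) q = 0 from hq,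
      show A.act e p = 0 from e_of_z hs0 hp]
    simp)
  have key : ∀ w, LinearMap.mul' k k (TensorProduct.map α β (tens A.act B.act (z b) w)) = 0 := by
    intro w
    induction w with
    | zero => simp
    | add x y hx hy => simp only [map_add, hx, hy, add_zero]
    | tmul u v => simp [tens_z, a1, a2, a3]
  have := key w
  rw [show tens A.act B.act (z b) w = p ⊗ₜ q from hw] at this
  simp [hα, hβ] at this

/-- the trivial module -/
noncomputable def triv : FDMod k (Hs k s) :=
  FDMod.ofHom k ((Algebra.ofId k (End k k)).comp (Bialgebra.counitAlgHom k (Hs k s)))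

theorem triv_act (a : Hs k s) (c : k) : (triv (s := s)).act a c = counit (R := k) a * c := rfl

theorem PP_prime (hs : ∀ a : k, a ^ 2 ≠ s) (b : k) : IsPrimeIdeal (PP (s := s) b) := by
  have hs0 : s ≠ 0 := fun h => hs 0 (by simp [h])
  refine ⟨PP_thick hs b, fun h => ?_, fun A B h => ?_⟩
  · have : triv ∈ PP (s := s) b := h ▸ Set.mem_univ _
    obtain ⟨w, hw⟩ := this (1 : k) ((triv_act _ _).trans (by rw [counit_z, zero_mul]; rfl))
    have h1 := (triv_act _ _).symm.trans hw
    rw [counit_z, zero_mul] at h1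
    exact zero_ne_one (α := k) h1
  · refine (PP_cp hs0 b _ _ (h triv)).imp_left fun hA v hv => ?_
    obtain ⟨w, hw⟩ := hA (v ⊗ₜ (1 : k) : A.V ⊗[k] k) (by
      refine (tens_z A.act triv.act b v (1 : k)).trans ?_
      rw [triv_act, triv_act, counit_z, counit_y, show A.act (z b) v = 0 from hv, zero_mul]
      exact (by simp : (0 : A.V) ⊗ₜ[k] (1 : k) + v ⊗ₜ (0 : k) + A.act e v ⊗ₜ (0 : k) = 0))
    have h1 := tw_rid A.act (σ := triv.act) (π := LinearMap.id) triv_act (z b) w
    refine ⟨_, h1.symm.trans ?_⟩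
    refine (congrArg _ hw).trans ?_
    exact one_smul k v

omit [CharP k 2] in
theorem PP_ne : PP (s := s) 0 ≠ PP 1 := by
  let φ : Hs k s →ₐ[k] QuadraticAlgebra k 0 0 :=
    lift 0 ⟨0, 1⟩ 0 (by simp) (by ext <;> simp [sq]) (by simp)
  let N : FDMod k (Hs k s) := FDMod.ofHom (QuadraticAlgebra k 0 0) ((Algebra.lmul k _).comp φ)
  have h1 : N ∈ PP 1 := by
    intro (v : QuadraticAlgebra k 0 0) (hv : φ (z 1) * v = 0)
    have h : φ (z 1) = ⟨0, 1⟩ := by simp [φ, z]
    refine ⟨(⟨v.im, 0⟩ : QuadraticAlgebra k 0 0), ?_⟩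
    change φ (z 1) * _ = v
    rw [h] at hv ⊢
    have := congrArg QuadraticAlgebra.im hv
    ext
    · simpa using this.symm
    · simp
  intro h
  rw [← h] at h1
  have h2 : φ (z 0) = 0 := by simp [φ, z]
  obtain ⟨w, hw⟩ := h1 (1 : QuadraticAlgebra k 0 0)
    (by change φ (z 0) * _ = (0 : QuadraticAlgebra k 0 0); rw [h2, zero_mul])
  change φ (z 0) * _ = (1 : QuadraticAlgebra k 0 0) at hw
  rw [h2, zero_mul] at hw
  exact zero_ne_one hw

theorem beta_gen {ψ : Dual k (Hs k s)} (h1 : ∀ l, ψ (l * y) = 0) (h2 : ∀ l, ψ (e * l) = ψ l)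
    (b : k) : beta (Algebra.lmul k (Hs k s)) (z b) (ψ ⊗ₜ 1) = ψ ⊗ₜ z (b + 1) := by
  have a1 : rt k _ y ψ = 0 := LinearMap.ext h1
  have a2 : lt k _ e ψ = ψ := LinearMap.ext fun l => by rw [lt_apply, antipode_e, h2]
  have a3 : lt k _ (z b) ψ = rt k _ (z b) ψ := LinearMap.ext fun l => by
    have : antipode k (z b : Hs k s) * l = l * z b + (e * l) * y := by
      rw [z, map_add, map_smul, antipode_x, antipode_y, Algebra.smul_def]
      ring
    rw [lt_apply, rt_apply, this, map_add, h1, add_zero]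
  rw [beta, tri, cv_z]
  simp only [LinearMap.add_apply, End.mul_apply, AlgHom.comp_apply, End.rTensorAlgHom_apply_apply,
    tens_z]
  change lt k _ (z b) ψ ⊗ₜ[k] 1 + ψ ⊗ₜ[k] (z b * 1) + lt k _ e ψ ⊗ₜ[k] (y * 1) +
    rt k _ (z b) ψ ⊗ₜ[k] 1 + tens _ _ e (rt k _ y ψ ⊗ₜ[k] 1) = _
  have a4 : (z (b + 1) : Hs k s) = z b + y := by rw [z, z, add_smul, one_smul, add_assoc]
  rw [a1, a2, a3, a4, TensorProduct.zero_tmul, map_zero, mul_one, mul_one, TensorProduct.tmul_add]
  have a5 := add_self (k := k) (rt k _ (z b) ψ ⊗ₜ[k] (1 : Hs k s))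
  rw [add_zero, ← add_zero (ψ ⊗ₜ[k] z b + ψ ⊗ₜ[k] y), ← a5]
  abel

theorem spc_eq :
    resPreimage (incl k _) (PP (s := s) 0) = resPreimage (incl k _) (PP 1) := by
  let g : Hs k s →ₐ[k] QuadraticAlgebra k s 0 :=
    lift 1 0 ⟨0, 1⟩ (by simp) (by simp) (by ext <;> simp [sq])
  let γ0 : Dual k (Hs k s) := QuadraticAlgebra.reₗ s 0 ∘ₗ g.toLinearMap
  let γ1 : Dual k (Hs k s) := QuadraticAlgebra.imₗ s 0 ∘ₗ g.toLinearMap
  have hg : (Algebra.TensorProduct.lift g g fun _ _ => Commute.all _ _).comp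
      (Bialgebra.comulAlgHom k _) = (Algebra.ofId k _).comp (Bialgebra.counitAlgHom k _) := by
    refine hom_ext ?_ ?_ ?_ <;>
      simp [g, comul_e, comul_y, comul_x, counit_e, counit_y, counit_x, add_self (k := k)]
  have hγ : conv γ0 γ0 + s • conv γ1 γ1 = counit := by
    ext l
    have h1 := congrArg QuadraticAlgebra.re (AlgHom.congr_fun hg l)
    refine Eq.trans ?_ h1
    change _ = (Algebra.TensorProduct.lift g g (fun _ _ => Commute.all _ _) (comul l)).re
    simp only [LinearMap.add_apply, LinearMap.smul_apply, conv_apply]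
    induction (comul l : Hs k s ⊗[k] Hs k s) with
    | zero => simp
    | add x y hx hy => simp only [map_add, smul_add, QuadraticAlgebra.re_add, ← hx, ← hy]; abel
    | tmul u v => simp [γ0, γ1, mul_assoc]
  have hy : ∀ l, g (l * y) = 0 := fun l => by simp [g]
  have he : ∀ l, g (e * l) = g l := fun l => by simp [g]
  have key : ∀ b : k, resPreimage (incl k _) (PP (s := s) b) ⊆
      resPreimage (incl k _) (PP (b + 1)) := by
    intro b M hM m hm
    let j : Dual k (Hs k s) →ₗ[k] Double k (Hs k s) := (TensorProduct.mk k _ (Hs k s)).flip 1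
    have c1 : ∀ (ψ : Dual k (Hs k s)), (∀ l, ψ (l * y) = 0) → (∀ l, ψ (e * l) = ψ l) → ∀ c : k,
        incl k _ (z c) * j ψ = j ψ * incl k _ (z (c + 1)) := by
      intro ψ h1 h2 c
      change theta (Algebra.lmul k _) (counit ⊗ₜ z c) (ψ ⊗ₜ 1) =
        theta (Algebra.lmul k _) (ψ ⊗ₜ 1) (counit ⊗ₜ z (c + 1))
      rw [theta_tmul, theta_tmul, alpha_counit, one_mul, beta_gen h1 h2, map_one, mul_one,
        alpha_tmul, conv_counit_left]
    have c2 : ∀ ψ φ, j ψ * j φ = j (conv φ ψ) := by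
      intro ψ φ
      change theta (Algebra.lmul k _) (ψ ⊗ₜ 1) (φ ⊗ₜ 1) = _
      rw [theta_tmul, map_one, mul_one, alpha_tmul]
      rfl
    have c3 : j γ0 * j γ0 + s • (j γ1 * j γ1) = 1 := by
      rw [c2, c2, ← map_smul, ← map_add, hγ]
      rfl
    have c4 : ∀ (ψ : Dual k (Hs k s)), (∀ l, ψ (l * y) = 0) → (∀ l, ψ (e * l) = ψ l) →
        ∃ w : M.V, incl k (Hs k s) (z (b + 1)) • w = (j ψ * j ψ) • (show M.V from m) := by
      intro ψ h1 h2
      obtain ⟨w, hw⟩ := hM (j ψ • (show M.V from m)) (by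
        change incl k (Hs k s) (z b) • j ψ • (show M.V from m) = (0 : M.V)
        rw [smul_smul, c1 ψ h1 h2, mul_smul]
        exact (congrArg (fun v : M.V => j ψ • v) hm).trans (M.act (j ψ)).map_zero)
      refine ⟨j ψ • (show M.V from w), ?_⟩
      have hb : b + 1 + 1 = b := by rw [add_assoc, add_self (k := k), add_zero]
      rw [smul_smul, c1 ψ h1 h2, hb, mul_smul, mul_smul]
      exact congrArg (fun v : M.V => j ψ • v) hw
    obtain ⟨w0, h0⟩ := c4 γ0 (fun l => congrArg QuadraticAlgebra.re (hy l))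
      fun l => congrArg QuadraticAlgebra.re (he l)
    obtain ⟨w1, h1⟩ := c4 γ1 (fun l => congrArg QuadraticAlgebra.im (hy l))
      fun l => congrArg QuadraticAlgebra.im (he l)
    refine ⟨w0 + s • w1, ?_⟩
    change incl k (Hs k s) (z (b + 1)) • (w0 + s • w1) = (show M.V from m)
    rw [smul_add, smul_comm, h0, h1, ← smul_assoc, ← add_smul, c3, one_smul]
  refine Set.Subset.antisymm ?_ ?_
  · simpa using key 0
  · simpa [add_self (k := k)] using key 1

theorem not_injOn (hs : ∀ a : k, a ^ 2 ≠ s) :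
    ¬ Set.InjOn (resPreimage (incl k (Hs k s))) {P | IsPrimeIdeal P} :=
  fun h => PP_ne (h (PP_prime hs 0) (PP_prime hs 1) spc_eq)

end Hs

end Pool.Agent.MP_3775ab_al.H73
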