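import Pool.Agent.MP_3775ab_al.H73.Double

open scoped TensorProduct
open WithConv Coalgebra HopfAlgebra Module

namespace Pool.Agent.MP_3775ab_al.H73

universe u

variable {k H : Type u} [Field k] [Ring H] [HopfAlgebra k H]

section Monoid
variable {U V W : Type u} [AddCommMonoid U] [Module k U] [AddCommMonoid V] [Module k V]
  [AddCommMonoid W] [Module k W]

theorem tens_conv (ρ : H →ₐ[k] End k V) (σ : H →ₐ[k] End k W) :
    toConv (tens ρ σ).toLinearMap =
      toConv ((End.rTensorAlgHom k V W).comp ρ).toLinearMap *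
        toConv ((End.lTensorAlgHom k W V).comp σ).toLinearMap :=
  cv_toLinearMap _ _ _

theorem comp_tens_conv {A : Type u} [Semiring A] [Algebra k A] (φ : End k (V ⊗[k] W) →ₐ[k] A)
    (ρ : H →ₐ[k] End k V) (σ : H →ₐ[k] End k W) :
    toConv (φ.comp (tens ρ σ)).toLinearMap =
      toConv (φ.comp ((End.rTensorAlgHom k V W).comp ρ)).toLinearMap *
        toConv (φ.comp ((End.lTensorAlgHom k W V).comp σ)).toLinearMap := by
  have := algHom_comp_mul φ (toConv ((End.rTensorAlgHom k V W).comp ρ).toLinearMap)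
    (toConv ((End.lTensorAlgHom k W V).comp σ).toLinearMap)
  rw [← tens_conv] at this
  exact this

theorem Tw.symm {V W : Type u} [AddCommMonoid V] [Module k V] [AddCommMonoid W] [Module k W]
    {e : V ≃ₗ[k] W} {f : WithConv (H →ₗ[k] Module.End k V)}
    {g : WithConv (H →ₗ[k] Module.End k W)} (h : Tw e.toLinearMap f g) :
    Tw e.symm.toLinearMap g f := by
  intro a w
  obtain ⟨v, rfl⟩ := e.surjective w
  have := h a v
  simp only [LinearEquiv.coe_coe] at this ⊢
  rw [← this, e.symm_apply_apply, e.symm_apply_apply]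

theorem Tw.comp {U V W : Type u} [AddCommMonoid U] [Module k U] [AddCommMonoid V] [Module k V]
    [AddCommMonoid W] [Module k W] {T : U →ₗ[k] V} {T' : V →ₗ[k] W}
    {e : WithConv (H →ₗ[k] Module.End k U)} {f : WithConv (H →ₗ[k] Module.End k V)}
    {g : WithConv (H →ₗ[k] Module.End k W)} (h' : Tw T' f g) (h : Tw T e f) :
    Tw (T' ∘ₗ T) e g :=
  fun a v => (congrArg T' (h a v)).trans (h' a _)

theorem tw_assoc (ρ : H →ₐ[k] End k U) (σ : H →ₐ[k] End k V) (τ : H →ₐ[k] End k W) :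
    Tw (TensorProduct.assoc k U V W).toLinearMap (toConv (tens (tens ρ σ) τ).toLinearMap)
      (toConv (tens ρ (tens σ τ)).toLinearMap) := by
  rw [tens_conv, tens_conv, comp_tens_conv, comp_tens_conv, ← mul_assoc]
  exact Tw.mul (Tw.mul (Tw.of_tmul3' fun _ _ _ _ => rfl) (Tw.of_tmul3' fun _ _ _ _ => rfl))
    (Tw.of_tmul3' fun _ _ _ _ => rfl)

theorem tw_rightComm (ρ : H →ₐ[k] End k U) (σ : H →ₐ[k] End k V) (τ : H →ₐ[k] End k W)
    (l r : H →ₐ[k] End k (U ⊗[k] W)) (c : ∀ a b, Commute (l a) (r b))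
    (hl : ∀ a x y, l a (x ⊗ₜ y) = ρ a x ⊗ₜ y) (hr : ∀ a x y, r a (x ⊗ₜ y) = x ⊗ₜ τ a y) :
    Tw (TensorProduct.rightComm k U W V).toLinearMap (toConv (tri l r c σ).toLinearMap)
      (toConv (tens (tens ρ σ) τ).toLinearMap) := by
  rw [tri_conv, tens_conv, comp_tens_conv]
  refine Tw.mul (Tw.mul (Tw.of_tmul3' fun a x y n => ?_) (Tw.of_tmul3' fun _ _ _ _ => rfl))
    (Tw.of_tmul3' fun a x y n => ?_)
  · exact congrArg (fun z => TensorProduct.rightComm k U W V (z ⊗ₜ n)) (hl a x y)
  · exact congrArg (fun z => TensorProduct.rightComm k U W V (z ⊗ₜ n)) (hr a x y)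

theorem tw_tri (l r : H →ₐ[k] End k U) (c : ∀ a b, Commute (l a) (r b))
    (l' r' : H →ₐ[k] End k V) (c' : ∀ a b, Commute (l' a) (r' b)) (ρ : H →ₐ[k] End k W)
    (f : U →ₗ[k] V) (hl : ∀ a x, f (l a x) = l' a (f x)) (hr : ∀ a x, f (r a x) = r' a (f x)) :
    Tw (f.rTensor W) (toConv (tri l r c ρ).toLinearMap) (toConv (tri l' r' c' ρ).toLinearMap) := by
  rw [tri_conv, tri_conv]
  refine Tw.mul (Tw.mul (Tw.of_tmul fun a q n => ?_) (Tw.of_tmul fun _ _ _ => rfl))
    (Tw.of_tmul fun a q n => ?_)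
  · exact congrArg (· ⊗ₜ[k] n) (hl a q)
  · exact congrArg (· ⊗ₜ[k] n) (hr a q)

theorem tw_lTensor (ρ : H →ₐ[k] End k U) {σ : H →ₐ[k] End k V} {τ : H →ₐ[k] End k W}
    {f : V →ₗ[k] W} (h : ∀ a x, f (σ a x) = τ a (f x)) :
    Tw (f.lTensor U) (toConv (tens ρ σ).toLinearMap) (toConv (tens ρ τ).toLinearMap) := by
  rw [tens_conv, tens_conv]
  exact Tw.mul (Tw.of_tmul fun _ _ _ => rfl)
    (Tw.of_tmul fun a m w => congrArg (m ⊗ₜ[k] ·) (h a w))

theorem tw_rid (ρ : H →ₐ[k] End k U) {σ : H →ₐ[k] End k V} {π : V →ₗ[k] k}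
    (h : ∀ a x, π (σ a x) = counit (R := k) a * π x) :
    Tw ((TensorProduct.rid k U).toLinearMap ∘ₗ π.lTensor U) (toConv (tens ρ σ).toLinearMap)
      (toConv ρ.toLinearMap) := by
  rw [tens_conv, ← mul_one (toConv ρ.toLinearMap)]
  refine Tw.mul (Tw.of_tmul fun a m z => ?_) (Tw.of_tmul fun a m z => ?_)
  · exact ((ρ a).map_smul _ _).symm
  · change π (σ a z) • m = counit (R := k) a • π z • m
    rw [smul_smul, h]

theorem tw_mk {ρ : H →ₐ[k] End k U} (σ : H →ₐ[k] End k V) {x : U}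
    (h : ∀ a, ρ a x = counit (R := k) a • x) :
    Tw (TensorProduct.mk k U V x) (toConv σ.toLinearMap) (toConv (tens ρ σ).toLinearMap) := by
  rw [tens_conv, ← one_mul (toConv σ.toLinearMap)]
  refine Tw.mul (fun a m => ?_) fun _ _ => rfl
  change x ⊗ₜ[k] (counit (R := k) a • m) = ρ a x ⊗ₜ[k] m
  rw [h, TensorProduct.smul_tmul]

/-- the dual action -/
noncomputable def dualAct (ρ : H →ₐ[k] End k V) : H →ₐ[k] End k (Dual k V) where
  toFun a := (ρ (antipode k a)).dualMap
  map_one' := by ext; simp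
  map_mul' a b := by ext; simp [antipode_mul_antidistrib]
  map_zero' := by ext; simp
  map_add' a b := by ext; simp
  commutes' c := by ext; simp [Algebra.algebraMap_eq_smul_one]

/-- `ψ ⊗ w ↦ ψ 1 * ev w` -/
noncomputable def piMap (ev : V →ₗ[k] k) : Dual k H ⊗[k] V →ₗ[k] k :=
  LinearMap.applyₗ (1 : H) ∘ₗ (TensorProduct.rid k _).toLinearMap ∘ₗ ev.lTensor _

theorem piMap_beta {ρ : H →ₐ[k] End k V} {ev : V →ₗ[k] k}
    (h : ∀ a x, ev (ρ a x) = counit (R := k) a * ev x) (a : H) (z : Dual k H ⊗[k] V) :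
    piMap ev (beta ρ a z) = counit (R := k) a * piMap ev z := by
  let π' : Dual k H ⊗[k] V →ₗ[k] Dual k H := (TensorProduct.rid k _).toLinearMap ∘ₗ ev.lTensor _
  have hπ' : Tw π' (toConv (beta ρ).toLinearMap)
      (toConv (lt k H).toLinearMap * 1 * toConv (rt k H).toLinearMap) := by
    rw [beta, tri_conv]
    refine Tw.mul (Tw.mul (Tw.of_tmul fun a ψ w => ?_) (Tw.of_tmul fun a ψ w => ?_))
      (Tw.of_tmul fun a ψ w => ?_)
    · exact ((lt k H a).map_smul _ _).symm
    · change ev (ρ a w) • ψ = counit (R := k) a • ev w • ψ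
      rw [smul_smul, h]
    · exact ((rt k H a).map_smul _ _).symm
  rw [mul_one] at hπ'
  change π' (beta ρ a z) 1 = _ * π' z 1
  refine (LinearMap.congr_fun (hπ' a z) 1).trans ?_
  rw [LinearMap.convMul_apply]
  have h2 : ∀ t : H ⊗[k] H, LinearMap.mul' k _ (TensorProduct.map
      (lt k H).toLinearMap (rt k H).toLinearMap t) (π' z) 1 =
      π' z (LinearMap.mul' k H ((antipode k).rTensor H t)) := by
    intro t
    induction t with
    | zero => simp
    | add x y hx hy => simp only [map_add, hx, hy, LinearMap.add_apply]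
    | tmul a b => simp
  refine (h2 (comul a)).trans ?_
  simp [Algebra.algebraMap_eq_smul_one]

end Monoid

variable {V : Type u} [AddCommGroup V] [Module k V]

theorem ev_act (ρ : H →ₐ[k] End k V) (h : H) (w : Dual k V ⊗[k] V) :
    contractLeft k V (tens (dualAct ρ) ρ h w) = counit (R := k) h * contractLeft k V w := by
  have h1 := LinearMap.congr_fun (congrArg (fun f => f.ofConv h) (tens_conv (dualAct ρ) ρ)) w
  refine (congrArg (contractLeft k V) h1).trans ?_
  clear h1
  induction w with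
  | zero => simp
  | add x y hx hy => simp only [map_add, hx, hy, mul_add]
  | tmul φ m =>
    have h2 : ∀ t : H ⊗[k] H, contractLeft k V (LinearMap.mul' k _ (TensorProduct.map
        ((End.rTensorAlgHom k (Dual k V) V).comp (dualAct ρ)).toLinearMap
        ((End.lTensorAlgHom k V (Dual k V)).comp ρ).toLinearMap t) (φ ⊗ₜ m)) =
        φ (ρ (LinearMap.mul' k H ((antipode k).rTensor H t)) m) := by
      intro t
      induction t with
      | zero => simp
      | add x y hx hy => simp only [map_add, hx, hy, LinearMap.add_apply]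
      | tmul a b =>
        rw [LinearMap.rTensor_tmul, LinearMap.mul'_apply, map_mul]
        rfl
    refine (h2 (comul h)).trans ?_
    simp [Module.algebraMap_end_apply]

theorem coev_act [FiniteDimensional k V] (ρ : H →ₐ[k] End k V) (h : H) :
    tens ρ (dualAct ρ) h (coevaluation k V 1) = counit (R := k) h • coevaluation k V 1 := by
  let κ : V ⊗[k] Dual k V ≃ₗ[k] End k V :=
    TensorProduct.comm k _ _ ≪≫ₗ dualTensorHomEquiv k V V
  have hk : ∀ m φ x, κ (m ⊗ₜ φ) x = φ x • m := fun _ _ _ => rfl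
  have hκ : κ (coevaluation k V 1) = 1 := by
    ext m
    simp only [coevaluation_apply_one, map_sum, LinearMap.coe_sum, Finset.sum_apply, hk]
    exact (Basis.ofVectorSpace k V).sum_repr m
  have h1 : Tw κ.toLinearMap (toConv (tens ρ (dualAct ρ)).toLinearMap)
      (toConv (LinearMap.mul k (End k V) ∘ₗ ρ.toLinearMap) *
        toConv ((LinearMap.mul k (End k V)).flip ∘ₗ ρ.toLinearMap ∘ₗ antipode k)) := by
    rw [tens_conv]
    refine Tw.mul (Tw.of_tmul fun a m φ => ?_) (Tw.of_tmul fun a m φ => ?_)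
    · ext x
      exact ((ρ a).map_smul _ _).symm
    · ext x
      rfl
  apply κ.injective
  refine (h1 h _).trans ?_
  rw [LinearEquiv.coe_coe, map_smul, hκ, LinearMap.convMul_apply]
  have h2 : ∀ t : H ⊗[k] H, LinearMap.mul' k _ (TensorProduct.map
      (LinearMap.mul k (End k V) ∘ₗ ρ.toLinearMap)
      ((LinearMap.mul k (End k V)).flip ∘ₗ ρ.toLinearMap ∘ₗ antipode k) t) 1 =
      ρ (LinearMap.mul' k H ((antipode k).lTensor H t)) := by
    intro t
    induction t with
    | zero => simp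
    | add x y hx hy => simp only [map_add, hx, hy, LinearMap.add_apply]
    | tmul a b => simp
  refine (h2 (comul h)).trans ?_
  simp [Algebra.algebraMap_eq_smul_one]

theorem retract_beta [FiniteDimensional k V] (ρ : H →ₐ[k] End k V) :
    ∃ (i : V →ₗ[k] V ⊗[k] (Dual k H ⊗[k] (Dual k V ⊗[k] V)))
      (r : V ⊗[k] (Dual k H ⊗[k] (Dual k V ⊗[k] V)) →ₗ[k] V),
      Tw i (toConv ρ.toLinearMap) (toConv (tens ρ (beta (tens (dualAct ρ) ρ))).toLinearMap) ∧
      Tw r (toConv (tens ρ (beta (tens (dualAct ρ) ρ))).toLinearMap) (toConv ρ.toLinearMap) ∧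
      ∀ v, r (i v) = v := by
  refine ⟨_, _, (tw_lTensor ρ (f := TensorProduct.mk k (Dual k H) _ counit)
      fun a x => (beta_counit _ a x).symm).comp
      ((tw_assoc ρ (dualAct ρ) ρ).comp (tw_mk ρ (coev_act ρ))),
    tw_rid ρ (piMap_beta (ev_act ρ)), fun m => ?_⟩
  have h1 : ∀ w : V ⊗[k] (Dual k V ⊗[k] V),
      (piMap (H := H) (contractLeft k V)).lTensor V
        ((TensorProduct.mk k (Dual k H) _ counit).lTensor V w) = (contractLeft k V).lTensor V w := by
    intro w
    rw [← LinearMap.lTensor_comp_apply]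
    congr 2
    ext φ x
    simp [piMap]
  have := LinearMap.congr_fun (contractLeft_assoc_coevaluation' k V) (1 ⊗ₜ m)
  simp only [LinearMap.comp_apply, LinearEquiv.coe_coe, LinearMap.rTensor_tmul,
    TensorProduct.lid_tmul, one_smul] at this
  simp only [LinearMap.comp_apply, LinearEquiv.coe_coe, h1, TensorProduct.mk_apply, this,
    LinearEquiv.apply_symm_apply]

end Pool.Agent.MP_3775ab_al.H73
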