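import Pool.Agent.MP_3775ab_al.H73.Retract
import Pool.Agent.MP_3775ab_al.H73.Raw

open scoped TensorProduct
open WithConv Coalgebra HopfAlgebra Module

namespace Pool.Agent.MP_3775ab_al.H73

universe u

variable {k H : Type u} [Field k] [Ring H] [HopfAlgebra k H]

theorem lr_commute (Q : FDMod k (H ⊗[k] H)) (a b : H) :
    Commute ((Q.act.comp Algebra.TensorProduct.includeLeft) a)
      ((Q.act.comp Algebra.TensorProduct.includeRight) b) := by
  refine Commute.map ?_ Q.act
  change _ * _ = _ * _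
  simp

/-- the module `Q ⊗ N` with `h • (q ⊗ n) = ∑ (h₁ ⊗ h₃) • q ⊗ h₂ • n` -/
noncomputable def TQ (Q : FDMod k (H ⊗[k] H)) (N : FDMod k H) : FDMod k H :=
  FDMod.ofHom (Q.V ⊗[k] N.V) (tri _ _ (lr_commute Q) N.act)

/-- functoriality of `TQ` -/
noncomputable def Tmap {Q Q' : FDMod k (H ⊗[k] H)} (N : FDMod k H)
    (f : Q.V →ₗ[H ⊗[k] H] Q'.V) : (TQ Q N).V →ₗ[H] (TQ Q' N).V :=
  mkHom ((f.restrictScalars k).rTensor N.V) fun a v =>
    tw_tri _ _ (lr_commute Q) _ _ (lr_commute Q') N.act (f.restrictScalars k)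
      (fun a q => f.map_smul (a ⊗ₜ 1) q) (fun a q => f.map_smul (1 ⊗ₜ a) q) a v

theorem TQ_box_mem {P : Set (FDMod k H)} (hP : IsThickIdeal P) {N : FDMod k H} (hN : N ∈ P)
    (X Y : FDMod k H) : TQ (box X Y) N ∈ P := by
  have h1 : (X.tensor N).tensor Y ∈ P := hP.tensor_right _ _ (hP.tensor_left _ _ hN)
  have h2 := tw_rightComm X.act N.act Y.act _ _ (lr_commute (box X Y))
    (fun a x y => congrArg ((a • x) ⊗ₜ[k] ·) (one_smul H y))
    (fun a x y => congrArg (· ⊗ₜ[k] (a • y)) (one_smul H x))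
  exact hP.summand _ _
    ⟨mkHom (M := TQ (box X Y) N) (N := (X.tensor N).tensor Y) _ fun a v => h2 a v,
      mkHom (N := TQ (box X Y) N) (M := (X.tensor N).tensor Y) _ fun a v => h2.symm a v,
      fun v => (TensorProduct.rightComm k X.V Y.V N.V).symm_apply_apply v⟩ h1

theorem TQ_mem [PerfectField k] {P : Set (FDMod k H)} (hP : IsThickIdeal P) {N : FDMod k H}
    (hN : N ∈ P) (Q : FDMod k (H ⊗[k] H)) : TQ Q N ∈ P := by
  induction hn : finrank k Q.V using Nat.strong_induction_on generalizing Q with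
  | _ n ih =>
  by_cases hs : IsSimpleModule (H ⊗[k] H) Q.V
  · obtain ⟨X, Y, σ, π, h⟩ := simple_retract Q
    refine hP.summand _ _ ⟨Tmap N σ, Tmap N π, fun v => ?_⟩ (TQ_box_mem hP hN X Y)
    change (π.restrictScalars k).rTensor N.V ((σ.restrictScalars k).rTensor N.V v) = v
    rw [← LinearMap.rTensor_comp_apply, ← LinearMap.restrictScalars_comp, h]
    exact LinearMap.rTensor_id_apply _ _ _
  rcases subsingleton_or_nontrivial Q.V with h0 | h0
  · have : Subsingleton (TQ Q N).V := inferInstanceAs (Subsingleton (Q.V ⊗[k] N.V))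
    exact hP.summand _ N ⟨0, 0, fun _ => Subsingleton.elim _ _⟩ hN
  have : ∃ p : Submodule (H ⊗[k] H) Q.V, p ≠ ⊥ ∧ p ≠ ⊤ := by
    by_contra hc
    push Not at hc
    exact hs { eq_bot_or_eq_top := fun p => or_iff_not_imp_left.2 (hc p) }
  obtain ⟨p, hp1, hp2⟩ := this
  let f : (Q.sub p).V →ₗ[H ⊗[k] H] Q.V := p.subtype
  let g : Q.V →ₗ[H ⊗[k] H] (Q.quot p).V := p.mkQ
  have hf : Function.Injective (f.restrictScalars k) := p.injective_subtype
  have hg : Function.Surjective (g.restrictScalars k) := p.mkQ_surjective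
  have hfg : Function.Exact (f.restrictScalars k) (g.restrictScalars k) :=
    LinearMap.exact_subtype_mkQ p
  have hd : finrank k (Q.sub p).V + finrank k (Q.quot p).V = n := by
    have h1 := (g.restrictScalars k).finrank_range_add_finrank_ker
    rw [LinearMap.range_eq_top.2 hg, finrank_top, LinearMap.exact_iff.1 hfg,
      LinearMap.finrank_range_of_inj hf] at h1
    omega
  have hd1 : 0 < finrank k (Q.sub p).V := by
    have : Nontrivial (Q.sub p).V := Submodule.nontrivial_iff_ne_bot.2 hp1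
    exact finrank_pos
  have hd2 : 0 < finrank k (Q.quot p).V := by
    have : Nontrivial (Q.quot p).V := Submodule.Quotient.nontrivial_iff.2 hp2
    exact finrank_pos
  refine (hP.ses _ _ _ ⟨Tmap N f, Tmap N g, ?_, ?_, ?_⟩).2.1 (ih _ (by omega) _ rfl)
    (ih _ (by omega) _ rfl)
  · exact Module.Flat.rTensor_preserves_injective_linearMap _ hf
  · exact rTensor_exact N.V hfg hg
  · exact LinearMap.rTensor_surjective N.V hg

variable [FiniteDimensional k H] {D : Type u} [Ring D] [Algebra k D]
  {e : Dual k H ⊗[k] H ≃ₗ[k] D} {ι : H →ₐ[k] D}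

/-- the action of the double on `H* ⊗ V` -/
noncomputable def thetaHom (hD : IsDouble e ι) {V : Type u} [AddCommMonoid V] [Module k V]
    (ρ : H →ₐ[k] End k V) : D →ₐ[k] End k (Dual k H ⊗[k] V) :=
  AlgHom.ofLinearMap (theta ρ ∘ₗ e.symm.toLinearMap)
    (by
      rw [← map_one ι, hD.incl]
      exact (congrArg (theta ρ) (e.symm_apply_apply _)).trans (theta_one ρ))
    (fun x y => by
      obtain ⟨x, rfl⟩ := e.surjective x
      obtain ⟨y, rfl⟩ := e.surjective y
      rw [hD.mul_eq]
      simp only [LinearMap.comp_apply, LinearEquiv.coe_coe, LinearEquiv.symm_apply_apply,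
        theta_theta])

/-- the induced module `D(H) ⊗_H N = H* ⊗ N` -/
noncomputable def ind (hD : IsDouble e ι) (N : FDMod k H) : FDMod k D :=
  FDMod.ofHom (Dual k H ⊗[k] N.V) (thetaHom hD N.act)

theorem ind_act (hD : IsDouble e ι) (N : FDMod k H) (h : H) (v : Dual k H ⊗[k] N.V) :
    ((ind hD N).res ι).act h v = beta N.act h v := by
  change theta N.act (e.symm (ι h)) v = _
  rw [hD.incl, e.symm_apply_apply, theta_tmul, alpha_counit, one_mul]

theorem ind_mem [PerfectField k] (hD : IsDouble e ι) {P : Set (FDMod k H)} (hP : IsThickIdeal P)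
    {N : FDMod k H} (hN : N ∈ P) : (ind hD N).res ι ∈ P := by
  let Q : FDMod k (H ⊗[k] H) :=
    FDMod.ofHom (Dual k H) (Algebra.TensorProduct.lift (lt k H) (rt k H) lt_rt_commute)
  have h := tw_tri _ _ lt_rt_commute _ _ (lr_commute Q) N.act LinearMap.id
    (fun a q => by
      change lt k H a q = (lt k H a * rt k H 1) q
      rw [map_one, mul_one])
    (fun a q => by
      change rt k H a q = (lt k H 1 * rt k H a) q
      rw [map_one, one_mul])
  have h' : ∀ a v, beta N.act a v = (TQ Q N).act a v := by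
    intro a v
    have := h a v
    erw [LinearMap.rTensor_id] at this
    exact this
  exact hP.summand _ (TQ Q N) ⟨mkHom LinearMap.id fun a v => (ind_act hD N a v).trans (h' a v),
    mkHom LinearMap.id fun a v => (h' a v).symm.trans (ind_act hD N a v).symm, fun _ => rfl⟩
    (TQ_mem hP hN Q)

/-- the dual module -/
noncomputable def FDMod.dual (M : FDMod k H) : FDMod k H :=
  FDMod.ofHom (Dual k M.V) (dualAct M.act)

theorem mem_of_ind_mem (hD : IsDouble e ι) {P : Set (FDMod k H)} (hP : IsThickIdeal P)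
    {M : FDMod k H} (h : (ind hD (M.dual.tensor M)).res ι ∈ P) : M ∈ P := by
  obtain ⟨i, r, hi, hr, hri⟩ := retract_beta M.act
  have e1 : ((ind hD (M.dual.tensor M)).res ι).act = beta (tens (dualAct M.act) M.act) :=
    AlgHom.ext fun a => LinearMap.ext fun v => ind_act hD _ a v
  have e' : ∀ a v, (M.tensor ((ind hD (M.dual.tensor M)).res ι)).act a v =
      tens M.act (beta (tens (dualAct M.act) M.act)) a v := by
    intro a v
    rw [← e1]
    rfl
  exact hP.summand M (M.tensor ((ind hD (M.dual.tensor M)).res ι))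
    ⟨mkHom i fun a v => (hi a v).trans (e' a _).symm,
      mkHom r fun a v => (congrArg r (e' a v)).trans (hr a v), hri⟩
    (hP.tensor_left _ _ h)

theorem injOn_thick [PerfectField k] (hD : IsDouble e ι) :
    Set.InjOn (resPreimage ι) {P | IsThickIdeal P} := by
  have key : ∀ P P' : Set (FDMod k H), IsThickIdeal P → IsThickIdeal P' →
      resPreimage ι P = resPreimage ι P' → P ⊆ P' := by
    intro P P' hP hP' h M hM
    have h1 : ind hD (M.dual.tensor M) ∈ resPreimage ι P :=
      ind_mem hD hP (hP.tensor_left _ _ hM)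
    rw [h] at h1
    exact mem_of_ind_mem hD hP' h1
  intro P hP P' hP' h
  exact (key P P' hP hP' h).antisymm (key P' P hP' hP h.symm)

end Pool.Agent.MP_3775ab_al.H73
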