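import Mathlib

open scoped TensorProduct

namespace Pool.Agent.MP_3775ab_al.H73

universe u

/-- A finite-dimensional left module over the `k`-algebra `A`. -/
structure FDMod (k A : Type u) [Field k] [Ring A] [Algebra k A] where
  /-- the underlying vector space -/
  V : Type u
  [grp : AddCommGroup V]
  [modk : Module k V]
  [modA : Module A V]
  [tower : IsScalarTower k A V]
  [fin : FiniteDimensional k V]

attribute [instance] FDMod.grp FDMod.modk FDMod.modA FDMod.tower FDMod.fin

section Basic

variable {k A B : Type u} [Field k] [Ring A] [Algebra k A] [Ring B] [Algebra k B]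

/-- The module given by an algebra map `A → End V`. -/
def FDMod.ofHom (V : Type u) [AddCommGroup V] [Module k V] [FiniteDimensional k V]
    (ρ : A →ₐ[k] Module.End k V) : FDMod k A :=
  letI : Module A V := Module.compHom V ρ.toRingHom
  { V := V
    tower := ⟨fun c a v => by
      change ρ (c • a) v = c • ρ a v
      rw [map_smul]; rfl⟩ }

/-- The action of `A` on a module, as an algebra map `A → End V`. -/
def FDMod.act (M : FDMod k A) : A →ₐ[k] Module.End k M.V := Algebra.lsmul k k M.V

/-- Restriction of a module along an algebra map. -/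
def FDMod.res (φ : A →ₐ[k] B) (M : FDMod k B) : FDMod k A := FDMod.ofHom M.V (M.act.comp φ)

/-- `M` is a projective module. -/
def FDMod.IsProj (M : FDMod k A) : Prop := Module.Projective A M.V

/-- `M` is isomorphic to a direct summand of `N`. -/
def FDMod.IsSummand (M N : FDMod k A) : Prop :=
  ∃ (i : M.V →ₗ[A] N.V) (r : N.V →ₗ[A] M.V), ∀ v, r (i v) = v

/-- There is a short exact sequence `0 → L → M → N → 0`. -/
def FDMod.IsSES (L M N : FDMod k A) : Prop :=
  ∃ (f : L.V →ₗ[A] M.V) (g : M.V →ₗ[A] N.V),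
    Function.Injective f ∧ Function.Exact f g ∧ Function.Surjective g

/-- The preimage `F⁻¹(P)` of a class of modules under restriction `F` along `φ`. -/
def resPreimage (φ : A →ₐ[k] B) (P : Set (FDMod k A)) : Set (FDMod k B) := {M | M.res φ ∈ P}

end Basic

section Hopf

variable {k H : Type u} [Field k] [Ring H] [HopfAlgebra k H]

/-- For algebra maps `f, g` out of `H` with commuting images, the algebra map
`h ↦ ∑ f h₁ * g h₂` (Sweedler indices). -/
noncomputable def cv {A : Type u} [Semiring A] [Algebra k A] (f g : H →ₐ[k] A)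
    (c : ∀ a b, Commute (f a) (g b)) : H →ₐ[k] A :=
  (Algebra.TensorProduct.lift f g c).comp (Bialgebra.comulAlgHom k H)

theorem commute_tensor {V W : Type u} [AddCommMonoid V] [Module k V] [AddCommMonoid W] [Module k W]
    (f : Module.End k V) (g : Module.End k W) :
    Commute (Module.End.rTensorAlgHom k V W f) (Module.End.lTensorAlgHom k W V g) := by
  change _ * _ = _ * _
  ext v w
  rfl

/-- The action `h • (v ⊗ w) = ∑ h₁ • v ⊗ h₂ • w` on a tensor product. -/
noncomputable def tens {V W : Type u} [AddCommMonoid V] [Module k V] [AddCommMonoid W] [Module k W]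
    (ρ : H →ₐ[k] Module.End k V) (σ : H →ₐ[k] Module.End k W) :
    H →ₐ[k] Module.End k (V ⊗[k] W) :=
  cv ((Module.End.rTensorAlgHom k V W).comp ρ) ((Module.End.lTensorAlgHom k W V).comp σ)
    fun _ _ => commute_tensor _ _

/-- The tensor product `M ⊗ N` over `k`, with `H` acting through the coproduct. -/
noncomputable def FDMod.tensor (M N : FDMod k H) : FDMod k H :=
  FDMod.ofHom (M.V ⊗[k] N.V) (tens M.act N.act)

/-- Thick two-sided tensor ideals of `stmod H`, as classes of finite-dimensional modules: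
the class contains the projective modules (the zero objects of `stmod H`), is closed under direct
summands, has the two-out-of-three property for short exact sequences (the triangles of
`stmod H`), and is closed under tensoring with any module on either side. -/
structure IsThickIdeal (P : Set (FDMod k H)) : Prop where
  proj : ∀ M : FDMod k H, M.IsProj → M ∈ P
  summand : ∀ M N : FDMod k H, M.IsSummand N → N ∈ P → M ∈ P
  ses : ∀ L M N : FDMod k H, L.IsSES M N →
    (L ∈ P → M ∈ P → N ∈ P) ∧ (L ∈ P → N ∈ P → M ∈ P) ∧ (M ∈ P → N ∈ P → L ∈ P)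
  tensor_left : ∀ X M : FDMod k H, M ∈ P → X.tensor M ∈ P
  tensor_right : ∀ M X : FDMod k H, M ∈ P → M.tensor X ∈ P

/-- Points of the Balmer spectrum of `stmod H`: proper thick ideals `P` such that
`A ⊗ C ⊗ B ∈ P` for all `C` forces `A ∈ P` or `B ∈ P`. -/
structure IsPrimeIdeal (P : Set (FDMod k H)) : Prop where
  thick : IsThickIdeal P
  proper : P ≠ Set.univ
  prime : ∀ A B : FDMod k H, (∀ C : FDMod k H, (A.tensor C).tensor B ∈ P) → A ∈ P ∨ B ∈ P

/-- The product of `H*`: the functional `l ↦ ∑ ψ l₁ * φ l₂`. -/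
noncomputable def convDual (ψ φ : Module.Dual k H) : Module.Dual k H :=
  LinearMap.mul' k k ∘ₗ TensorProduct.map ψ φ ∘ₗ Coalgebra.comul

/-- The functional `l ↦ ψ (S a * l * b)`, where `S` is the antipode. -/
noncomputable def twist (a b : H) (ψ : Module.Dual k H) : Module.Dual k H :=
  ψ ∘ₗ LinearMap.mulRight k b ∘ₗ LinearMap.mulLeft k (HopfAlgebra.antipode k a)

/-- `∑ a i ⊗ b i ⊗ c i` is the double coproduct `∑ h₁ ⊗ h₂ ⊗ h₃` of `h`. -/
def IsComul3 (h : H) {n : ℕ} (a b c : Fin n → H) : Prop :=
  (Coalgebra.comul : H →ₗ[k] H ⊗[k] H).rTensor H (Coalgebra.comul h) =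
    ∑ i, (a i ⊗ₜ[k] b i) ⊗ₜ[k] c i

/-- The algebra `D` with `ι : H → D` is the Drinfeld double `D(H) = H*ᵒᵖ ⋈ H`: through `e` it is
the space `H* ⊗ H` with the product
`(φ ⊗ h) (ψ ⊗ g) = ∑ (ψ (S h₁ * · * h₃) * φ) ⊗ h₂ * g`, and `ι h = ε ⊗ h`. -/
structure IsDouble {D : Type u} [Ring D] [Algebra k D] (e : Module.Dual k H ⊗[k] H ≃ₗ[k] D)
    (ι : H →ₐ[k] D) : Prop where
  incl : ∀ h, ι h = e (Coalgebra.counit ⊗ₜ h)
  mul : ∀ (φ ψ : Module.Dual k H) (h g : H) (n : ℕ) (a b c : Fin n → H),
    IsComul3 (k := k) h a b c →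
      e (φ ⊗ₜ h) * e (ψ ⊗ₜ g) = ∑ i, e (convDual (twist (a i) (c i) ψ) φ ⊗ₜ (b i * g))

end Hopf

end Pool.Agent.MP_3775ab_al.H73
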