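import Pool.Agent.MP_3775ab_al.H73.Simple

open scoped TensorProduct
open Module

namespace Pool.Agent.MP_3775ab_al.H73

universe u

variable {k A : Type u} [Field k] [Ring A] [Algebra k A]

/-- `evg g (x ⊗ f) = f (g x)` -/
noncomputable def evg (X Q : FDMod k A) :
    End k X.V →ₗ[k] X.V ⊗[k] (X.V →ₗ[A] Q.V) →ₗ[k] Q.V :=
  (LinearMap.llcomp k _ _ _
    (TensorProduct.lift (LinearMap.restrictScalarsₗ k A X.V Q.V k).flip)) ∘ₗ
      LinearMap.rTensorHom (X.V →ₗ[A] Q.V)

@[simp] theorem evg_tmul (X Q : FDMod k A) (g : End k X.V) (x : X.V) (f : X.V →ₗ[A] Q.V) :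
    evg X Q g (x ⊗ₜ f) = f (g x) := rfl

/-- `pre d f = f ∘ d` -/
def pre (X Q : FDMod k A) : End A X.V →ₗ[k] End k (X.V →ₗ[A] Q.V) :=
  LinearMap.mk₂ k (fun d f => f ∘ₗ d) (fun _ _ _ => LinearMap.comp_add _ _ _)
    (fun _ _ _ => LinearMap.ext fun _ => LinearMap.map_smul_of_tower _ _ _)
    (fun _ _ _ => LinearMap.add_comp _ _ _) (fun _ _ _ => rfl)

/-- `act2 (a ⊗ b) (x ⊗ f) = a x ⊗ f ∘ b` -/
noncomputable def act2 (X Q : FDMod k A) :
    End A X.V ⊗[k] End A X.V →ₗ[k] End k (X.V ⊗[k] (X.V →ₗ[A] Q.V)) :=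
  TensorProduct.lift ((TensorProduct.mapBilinear (RingHom.id k) _ _ _ _).compl₁₂
    (resEnd X).toLinearMap (pre X Q))

@[simp] theorem act2_tmul (X Q : FDMod k A) (a b : End A X.V) (x : X.V) (f : X.V →ₗ[A] Q.V) :
    act2 X Q (a ⊗ₜ b) (x ⊗ₜ f) = a x ⊗ₜ (f ∘ₗ b) := rfl

theorem key [PerfectField k] (X Q : FDMod k A) [IsSimpleModule A X.V] :
    ∃ t : End A X.V ⊗[k] End A X.V,
      (∀ w, evg X Q 1 (act2 X Q t w) = evg X Q 1 w) ∧
      ∀ w, (∀ d : End A X.V, evg X Q (resEnd X d) (act2 X Q t w) = 0) → act2 X Q t w = 0 := by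
  classical
  obtain ⟨L, hL, hmax⟩ := exists_maxComm X
  have : FiniteDimensional k (End A X.V) := LinearMap.finiteDimensional'
  have hF : IsField L := by
    refine ⟨⟨0, 1, zero_ne_one⟩, fun a b => Subtype.ext (hL _ a.2 _ b.2), fun {a} ha => ?_⟩
    have ha' : a.1 ≠ 0 := fun h => ha (Subtype.ext h)
    refine ⟨⟨a.1⁻¹, hmax _ fun l hl => ?_⟩, Subtype.ext (mul_inv_cancel₀ ha')⟩
    have : Commute a.1 l := hL _ a.2 _ hl
    exact this.inv_left₀
  let := hF.toField
  have : Algebra.FormallyUnramified k L := Algebra.FormallyUnramified.of_isSeparable k L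
  obtain ⟨t, ht1, ht2⟩ := Algebra.FormallyUnramified.iff_exists_tensorProduct.1 this
  set j : L ⊗[k] L →ₗ[k] End k (X.V ⊗[k] (X.V →ₗ[A] Q.V)) :=
    act2 X Q ∘ₗ TensorProduct.map L.val.toLinearMap L.val.toLinearMap
  have hj : ∀ (a b : L) (x : X.V) (f : X.V →ₗ[A] Q.V),
      j (a ⊗ₜ b) (x ⊗ₜ f) = a.1 x ⊗ₜ (f ∘ₗ b.1) := fun _ _ _ _ => rfl
  have hmul : ∀ s s' : L ⊗[k] L, j (s * s') = j s * j s' := by
    intro s s'
    induction s with
    | zero => simp
    | add x y hx hy => simp only [add_mul, map_add, hx, hy]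
    | tmul a b =>
      induction s' with
      | zero => simp
      | add x y hx hy => simp only [mul_add, map_add, hx, hy]
      | tmul a' b' =>
        refine TensorProduct.ext' fun x f => ?_
        rw [Algebra.TensorProduct.tmul_mul_tmul, End.mul_apply, hj, hj, hj, mul_comm b b']
        rfl
  have hev : ∀ (l : L) (s : L ⊗[k] L) w, evg X Q (resEnd X l.1) (j s w) =
      evg X Q (resEnd X (l * Algebra.TensorProduct.lmul' k s).1) w := by
    intro l s w
    induction s with
    | zero => simp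
    | add x y hx hy =>
      simp only [mul_add, map_add, hx, hy, LinearMap.add_apply, Subalgebra.coe_add]
    | tmul a b =>
      induction w with
      | zero => simp
      | add x y hx hy => simp only [map_add, hx, hy]
      | tmul x f =>
        rw [hj, evg_tmul, evg_tmul, Algebra.TensorProduct.lmul'_apply_tmul,
          show l * (a * b) = b * l * a by ring]
        rfl
  have hev' : ∀ (l : L) w, evg X Q (resEnd X l.1) (j t w) = evg X Q (resEnd X l.1) w := by
    intro l w
    rw [hev, ht2, mul_one]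
  have hsw : ∀ (l : L) (x : X.V) (f : X.V →ₗ[A] Q.V),
      j t (l.1 x ⊗ₜ f) = j t (x ⊗ₜ (f ∘ₗ l.1)) := by
    intro l x f
    have h := ht1 l
    rw [sub_mul, sub_eq_zero, mul_comm, mul_comm _ t] at h
    have h' := LinearMap.congr_fun (congrArg j h) (x ⊗ₜ f)
    rw [hmul, hmul, End.mul_apply, End.mul_apply, hj, hj] at h'
    exact h'.symm
  refine ⟨TensorProduct.map L.val.toLinearMap L.val.toLinearMap t, fun w => ?_, fun w hw => ?_⟩
  · have := hev' 1 w
    rwa [Subalgebra.coe_one, map_one] at this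
  change j t w = 0
  have hw' : ∀ l : L, evg X Q (resEnd X l.1) w = 0 := fun l => (hev' l w).symm.trans (hw l.1)
  have hg : ∀ g : End k X.V, (∀ l ∈ L, ∀ x, g (l x) = l (g x)) → evg X Q g w = 0 := by
    intro g hg
    have := density X L hmax g hg
    clear hg
    induction this using Submodule.span_induction with
    | zero => simp
    | add x y _ _ hx hy => simp [hx, hy]
    | smul c x _ hx => simp [hx]
    | mem g hg =>
      obtain ⟨a, l, hl, rfl⟩ := hg
      have : ∀ w, evg X Q (X.act a * resEnd X l) w = a • evg X Q (resEnd X l) w := by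
        intro w
        induction w with
        | zero => simp
        | add x y hx hy => simp only [map_add, hx, hy, smul_add]
        | tmul x f => exact f.map_smul a _
      rw [this, hw' ⟨l, hl⟩, smul_zero]
  have : IsScalarTower k L X.V := ⟨fun _ _ _ => rfl⟩
  have : Module.Finite L X.V := Module.Finite.of_restrictScalars_finite k L X.V
  let b := Module.finBasis L X.V
  let α : Fin (finrank L X.V) → X.V →ₗ[k] End A X.V := fun i =>
    L.val.toLinearMap ∘ₗ (b.coord i).restrictScalars k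
  let c : Fin (finrank L X.V) → X.V ⊗[k] (X.V →ₗ[A] Q.V) →ₗ[k] (X.V →ₗ[A] Q.V) := fun i =>
    TensorProduct.lift (pre X Q ∘ₗ α i)
  have hA : ∀ w, j t w = ∑ i, j t (b i ⊗ₜ c i w) := by
    intro w
    induction w with
    | zero => simp
    | add x y hx hy => simp only [map_add, hx, hy, TensorProduct.tmul_add, Finset.sum_add_distrib]
    | tmul x f =>
      conv_lhs => rw [← b.sum_repr x, TensorProduct.sum_tmul, map_sum]
      exact Finset.sum_congr rfl fun i _ => hsw (b.repr x i) (b i) f
  have hB : ∀ i, c i w = 0 := by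
    intro i
    ext x
    let g : End k X.V := (LinearMap.restrictScalarsₗ k A X.V X.V k).flip x ∘ₗ α i
    have h1 : ∀ w, c i w x = evg X Q g w := by
      intro w
      induction w with
      | zero => simp
      | add x y hx hy => simp only [map_add, hx, hy, LinearMap.add_apply]
      | tmul x f => rfl
    rw [h1]
    refine hg g fun l hl y => ?_
    have := (b.coord i).map_smul (⟨l, hl⟩ : L) y
    change (b.coord i ((⟨l, hl⟩ : L) • y)).1 x = _
    rw [this]
    rfl
  rw [hA]
  simp [hB]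

/-- the outer tensor product of two modules -/
noncomputable def box (X Y : FDMod k A) : FDMod k (A ⊗[k] A) :=
  FDMod.ofHom (X.V ⊗[k] Y.V)
    (Algebra.TensorProduct.lift ((End.rTensorAlgHom k X.V Y.V).comp X.act)
      ((End.lTensorAlgHom k Y.V X.V).comp Y.act) fun _ _ => commute_tensor _ _)

theorem simple_retract [PerfectField k] (Q : FDMod k (A ⊗[k] A))
    [IsSimpleModule (A ⊗[k] A) Q.V] :
    ∃ (X Y : FDMod k A) (σ : Q.V →ₗ[A ⊗[k] A] (box X Y).V) (π : (box X Y).V →ₗ[A ⊗[k] A] Q.V),
      π ∘ₗ σ = LinearMap.id := by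
  let QL : FDMod k A := Q.res Algebra.TensorProduct.includeLeft
  have : Nontrivial QL.V := IsSimpleModule.nontrivial (A ⊗[k] A) Q.V
  obtain ⟨p, -, hp⟩ := QL.exists_atom ⊤ top_ne_bot
  let X := QL.sub p
  have hX : IsSimpleModule A X.V := hp
  have : FiniteDimensional k (X.V →ₗ[A] QL.V) := LinearMap.finiteDimensional'
  have hlr : ∀ (a b : A) (q : Q.V), Q.act (1 ⊗ₜ b) (Q.act (a ⊗ₜ 1) q) = Q.act (a ⊗ₜ b) q ∧
      Q.act (a ⊗ₜ 1) (Q.act (1 ⊗ₜ b) q) = Q.act (a ⊗ₜ b) q := by
    intro a b q
    rw [← End.mul_apply, ← End.mul_apply, ← map_mul, ← map_mul]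
    simp
  let μ : A → QL.V →ₗ[A] QL.V := fun b =>
    mkHom (Q.act (1 ⊗ₜ b)) fun a q => (hlr a b q).1.trans (hlr a b q).2.symm
  let ρ : A →ₐ[k] End k (X.V →ₗ[A] QL.V) :=
    { toFun := fun b =>
        { toFun := fun f => μ b ∘ₗ f
          map_add' := fun _ _ => LinearMap.comp_add _ _ _
          map_smul' := fun c f => LinearMap.ext fun x => (Q.act (1 ⊗ₜ b)).map_smul c _ }
      map_one' := by
        ext f x
        exact LinearMap.congr_fun (map_one Q.act) _
      map_mul' := fun a b => by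
        ext f x
        have := map_mul Q.act (1 ⊗ₜ a) (1 ⊗ₜ b)
        rw [Algebra.TensorProduct.tmul_mul_tmul, one_mul] at this
        exact LinearMap.congr_fun this _
      map_zero' := by
        ext f x
        change Q.act (1 ⊗ₜ 0) _ = 0
        simp
      map_add' := fun a b => by
        ext f x
        change Q.act (1 ⊗ₜ (a + b)) _ = Q.act (1 ⊗ₜ a) _ + Q.act (1 ⊗ₜ b) _
        rw [TensorProduct.tmul_add, map_add]
        rfl
      commutes' := fun c => by
        ext f x
        exact LinearMap.congr_fun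
          ((Q.act.comp Algebra.TensorProduct.includeRight).commutes c) (f x) }
  let Y : FDMod k A := FDMod.ofHom (X.V →ₗ[A] QL.V) ρ
  let τ : A ⊗[k] A →ₐ[k] End k (X.V ⊗[k] (X.V →ₗ[A] QL.V)) := (box X Y).act
  have hact : ∀ (a b : A) (x : X.V) (f : X.V →ₗ[A] QL.V),
      τ (a ⊗ₜ b) (x ⊗ₜ f) = (a • x) ⊗ₜ (μ b ∘ₗ f) := fun _ _ _ _ => rfl
  obtain ⟨t, ht1, ht2⟩ := key X QL
  let ev : End A X.V → X.V ⊗[k] (X.V →ₗ[A] QL.V) →ₗ[k] Q.V := fun d => evg X QL (resEnd X d)
  have hπ : ∀ (d : End A X.V) r w, ev d (τ r w) = Q.act r (ev d w) := by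
    intro d r w
    induction r with
    | zero => simp
    | add x y hx hy => simp only [map_add, LinearMap.add_apply, hx, hy]
    | tmul a b =>
      induction w with
      | zero => simp
      | add x y hx hy => simp only [map_add, hx, hy]
      | tmul x f =>
        rw [hact]
        change Q.act (1 ⊗ₜ b) (f (d (a • x))) = _
        rw [d.map_smul, f.map_smul]
        exact (hlr a b _).1
  have he : ∀ s r w, act2 X QL s (τ r w) = τ r (act2 X QL s w) := by
    intro s r w
    induction r with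
    | zero => simp
    | add x y hx hy => simp only [map_add, LinearMap.add_apply, hx, hy]
    | tmul a b =>
      induction w with
      | zero => simp
      | add x y hx hy => simp only [map_add, hx, hy]
      | tmul x f =>
        rw [hact]
        induction s with
        | zero => simp
        | add x y hx hy => simp only [map_add, LinearMap.add_apply, hx, hy]
        | tmul c d =>
          rw [act2_tmul, act2_tmul, hact, map_smul]
          rfl
  let π : End A X.V → (box X Y).V →ₗ[A ⊗[k] A] Q.V := fun d =>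
    mkHom (ev d) (hπ d)
  let e : (box X Y).V →ₗ[A ⊗[k] A] (box X Y).V := mkHom (act2 X QL t) (he t)
  have hne : LinearMap.range e ≠ ⊥ := by
    intro h
    have := IsSimpleModule.nontrivial A X.V
    obtain ⟨x, hx⟩ := exists_ne (0 : X.V)
    have h0 : act2 X QL t (x ⊗ₜ p.subtype) = 0 :=
      LinearMap.congr_fun (LinearMap.range_eq_bot.1 h) (x ⊗ₜ p.subtype)
    have h1 := ht1 (x ⊗ₜ p.subtype)
    rw [h0, map_zero] at h1
    exact hx (p.injective_subtype (h1.symm.trans (map_zero _).symm))
  obtain ⟨U, hU, hUs⟩ := (box X Y).exists_atom _ hne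
  have hd : ∃ d, π d ∘ₗ U.subtype ≠ 0 := by
    by_contra hcon
    push Not at hcon
    have := IsSimpleModule.nontrivial (A ⊗[k] A) U
    obtain ⟨v, hv⟩ := exists_ne (0 : U)
    obtain ⟨w, hw⟩ := hU v.2
    refine hv (Subtype.ext (hw.symm.trans (ht2 w fun d => ?_)))
    have := LinearMap.congr_fun (hcon d) v
    rw [LinearMap.comp_apply, Submodule.subtype_apply, ← hw] at this
    exact this
  obtain ⟨d, hd⟩ := hd
  let φ := LinearEquiv.ofBijective _ (LinearMap.bijective_of_ne_zero hd)
  exact ⟨X, Y, U.subtype ∘ₗ φ.symm.toLinearMap, π d, LinearMap.ext fun q => φ.apply_symm_apply q⟩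

end Pool.Agent.MP_3775ab_al.H73
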